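import Pool.Agent.Helper76.TW.Contract

/-!
# Thomas - Wollan linkage theorem (with the constant 32)

`massed_lk`: massed pairs are linked.
`linkage`: a `2k`-connected graph with at least `32 k n` edges is `k`-linked.
-/

set_option autoImplicit false

namespace Pool.Agent.Helper76.TW

open SimpleGraph

variable {V : Type*}

/-- deletion of an edge -/
theorem del_step [Finite V] {G : SimpleGraph V} {c : ℕ} {A X : Set V} (hM : Ms G c A X)
    (hc : X.ncard ≤ c)
    (IH : ∀ (G : SimpleGraph V) (A' X' : Set V), A'.ncard < A.ncard → X'.ncard ≤ X.ncard →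
      Ms G c A' X' → Lk G A' X')
    (IH2 : ∀ (G' : SimpleGraph V), (E2 G' A A).ncard < (E2 G A A).ncard → Ms G' c A X → Lk G' A X)
    (hbig : 2 * c * (A \ X).ncard + 2 < (E2 G A (A \ X)).ncard) : Lk G A X := by
  classical
  obtain ⟨⟨u, v⟩, hu, hv, huv, hor⟩ : (E2 G A (A \ X)).Nonempty := by
    apply Set.nonempty_of_ncard_ne_zero; omega
  simp only at hu hv huv hor
  let G' := G.deleteEdges {s(u, v)}
  have hle : G' ≤ G := SimpleGraph.deleteEdges_le _
  have hG' : ∀ x y, G.Adj x y → s(x, y) ≠ s(u, v) → G'.Adj x y := by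
    intro x y h1 h2
    show (G.deleteEdges {s(u, v)}).Adj x y
    rw [SimpleGraph.deleteEdges_adj]
    exact ⟨h1, by simpa using h2⟩
  have hnG' : ¬ G'.Adj u v := by
    intro h
    have h' : (G.deleteEdges {s(u, v)}).Adj u v := h
    rw [SimpleGraph.deleteEdges_adj] at h'
    exact h'.2 rfl
  by_cases hm : Ms G' c A X
  · refine (IH2 G' ?_ hm).mono_graph hle
    apply Set.ncard_lt_ncard _ (Set.toFinite _)
    refine ⟨E2_mono hle subset_rfl subset_rfl, fun h => ?_⟩
    have : (u, v) ∈ E2 G' A A := h ⟨hu, hv, huv, Or.inl hu⟩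
    exact hnG' this.2.2.1
  have hm1 : 2 * c * (A \ X).ncard < (E2 G' A (A \ X)).ncard := by
    have h1 : E2 G A (A \ X) ⊆ E2 G' A (A \ X) ∪ {(u, v), (v, u)} := by
      rintro ⟨x, y⟩ ⟨hx, hy, hxy, hor⟩
      by_cases hs : s(x, y) = s(u, v)
      · right
        rw [Sym2.eq_iff] at hs
        rcases hs with ⟨rfl, rfl⟩ | ⟨rfl, rfl⟩
        · exact Or.inl rfl
        · exact Or.inr rfl
      · exact Or.inl ⟨hx, hy, hG' x y hxy hs, hor⟩
    have h2 := Set.ncard_le_ncard h1 (Set.toFinite _)
    have h3 := Set.ncard_union_le (E2 G' A (A \ X)) {(u, v), (v, u)}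
    have h4 := Set.ncard_insert_le (u, v) {(v, u)}
    rw [Set.ncard_singleton] at h4
    omega
  have hex : ∃ P Q, Sp G' A P Q ∧ X ⊆ P ∧ (P ∩ Q).ncard < X.ncard ∧
      2 * c * (Q \ P).ncard < (E2 G' A (Q \ P)).ncard := by
    by_contra hcon
    push Not at hcon
    exact hm ⟨hM.sub, hm1, hcon⟩
  obtain ⟨P, Q, g1, g2, g3, g4⟩ := hex
  by_cases hS : Sp G A P Q
  · exfalso
    have h1 := hM.m2 P Q hS g2 g3
    have h2 := Set.ncard_le_ncard (E2_mono (A := A) (B := Q \ P) hle subset_rfl subset_rfl)
      (Set.toFinite _)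
    omega
  · have hxy : ∃ x ∈ P \ Q, ∃ y ∈ Q \ P, G.Adj x y := by
      by_contra hcon
      push Not at hcon
      exact hS ⟨g1.un, fun x hx y hy h => hcon x hx y hy h⟩
    obtain ⟨x, hx, y, hy, hadj⟩ := hxy
    have hs : s(x, y) = s(u, v) := by
      by_contra hne
      exact g1.no x hx y hy (hG' x y hadj hne)
    have e1 : insert y P ∩ Q = insert y (P ∩ Q) := by
      ext z
      simp only [Set.mem_inter_iff, Set.mem_insert_iff]
      constructor
      · rintro ⟨h1 | h1, h2⟩
        · exact Or.inl h1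
        · exact Or.inr ⟨h1, h2⟩
      · rintro (rfl | ⟨h1, h2⟩)
        · exact ⟨Or.inl rfl, hy.1⟩
        · exact ⟨Or.inr h1, h2⟩
    have hSp : Sp G A (insert y P) Q := by
      refine ⟨?_, ?_⟩
      · rw [Set.insert_union, g1.un, Set.insert_eq_of_mem (g1.rightSub hy.1)]
      · intro a ha b hb hab
        have haP : a ∈ P \ Q := by
          refine ⟨?_, ha.2⟩
          rcases ha.1 with h | h
          · exact absurd (h ▸ hy.1) ha.2
          · exact h
        have hbQ : b ∈ Q \ P := ⟨hb.1, fun h => hb.2 (Or.inr h)⟩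
        refine g1.no a haP b hbQ (hG' a b hab ?_)
        rw [← hs]
        intro h
        rw [Sym2.eq_iff] at h
        rcases h with ⟨_, h⟩ | ⟨h, _⟩
        · exact hb.2 (Or.inl h)
        · exact haP.2 (h ▸ hy.1)
    have hcard : (Q \ P).ncard = (Q \ insert y P).ncard + 1 := by
      have e : Q \ P = insert y (Q \ insert y P) := by
        ext z
        simp only [Set.mem_sdiff, Set.mem_insert_iff]
        constructor
        · rintro ⟨h1, h2⟩
          by_cases hz : z = y
          · exact Or.inl hz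
          · exact Or.inr ⟨h1, fun h => h.elim hz h2⟩
        · rintro (rfl | ⟨h1, h2⟩)
          · exact hy
          · exact ⟨h1, fun h => h2 (Or.inr h)⟩
      rw [e, Set.ncard_insert_of_notMem (by simp) (Set.toFinite _)]
    have hE : E2 G' A (Q \ P) ⊆ E2 G A (Q \ insert y P) ∪
        ((fun b => (y, b)) '' (P ∩ Q) ∪ (fun b => (b, y)) '' (P ∩ Q)) := by
      rw [E2_sep g1]
      rintro ⟨a, b⟩ ⟨ha, hb, hab, hor⟩
      simp only at ha hb hab hor
      have habG := hle hab
      by_cases h1 : a ∈ Q \ insert y P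
      · exact Or.inl ⟨g1.rightSub ha, g1.rightSub hb, habG, Or.inl h1⟩
      · by_cases h2 : b ∈ Q \ insert y P
        · exact Or.inl ⟨g1.rightSub ha, g1.rightSub hb, habG, Or.inr h2⟩
        · right
          have h1' : a = y ∨ a ∈ P := by
            by_contra hcon
            push Not at hcon
            exact h1 ⟨ha, fun h => h.elim hcon.1 hcon.2⟩
          have h2' : b = y ∨ b ∈ P := by
            by_contra hcon
            push Not at hcon
            exact h2 ⟨hb, fun h => h.elim hcon.1 hcon.2⟩
          rcases h1' with rfl | h1'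
          · rcases h2' with h2' | h2'
            · exact absurd h2'.symm hab.ne
            · exact Or.inl ⟨b, ⟨h2', hb⟩, rfl⟩
          · rcases h2' with rfl | h2'
            · exact Or.inr ⟨a, ⟨h1', ha⟩, rfl⟩
            · exfalso
              rcases hor with h | h
              · exact h.2 h1'
              · exact h.2 h2'
    have k1 := Set.ncard_le_ncard hE (Set.toFinite _)
    have k2 := Set.ncard_union_le (E2 G A (Q \ insert y P))
      ((fun b => (y, b)) '' (P ∩ Q) ∪ (fun b => (b, y)) '' (P ∩ Q))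
    have k3 := Set.ncard_union_le ((fun b => (y, b)) '' (P ∩ Q)) ((fun b => (b, y)) '' (P ∩ Q))
    have k4 := Set.ncard_image_le (f := fun b => (y, b)) (s := P ∩ Q) (Set.toFinite _)
    have k5 := Set.ncard_image_le (f := fun b => (b, y)) (s := P ∩ Q) (Set.toFinite _)
    refine viol hM IH hSp (g2.trans (Set.subset_insert _ _)) ?_ ?_ ?_
    · rw [e1]
      have := Set.ncard_insert_le y (P ∩ Q)
      omega
    · rw [hcard, mul_add, mul_one] at g4
      omega
    · intro h
      exact hx.2 (h ▸ g1.leftSub hx.1)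

/-- isolated vertices -/
theorem iso_step [Finite V] {G : SimpleGraph V} {c : ℕ} {A X : Set V} (hM : Ms G c A X)
    (IH : ∀ (G : SimpleGraph V) (A' X' : Set V), A'.ncard < A.ncard → X'.ncard ≤ X.ncard →
      Ms G c A' X' → Lk G A' X')
    {v : V} (hv : v ∈ A) (hvX : v ∉ X) (hiso : nb G A v = ∅) : Lk G A X := by
  have hno : ∀ w ∈ A, ¬ G.Adj v w := by
    intro w hw h
    have : w ∈ nb G A v := ⟨hw, h⟩
    rw [hiso] at this
    exact this
  have hA' : (A \ {v}).ncard < A.ncard := Set.ncard_sdiff_singleton_lt_of_mem hv (Set.toFinite _)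
  have hXA' : X ⊆ A \ {v} := fun x hx => ⟨hM.sub hx, fun h => hvX (h ▸ hx)⟩
  have hE : ∀ B, E2 G A B = E2 G (A \ {v}) B := by
    intro B
    ext ⟨x, y⟩
    constructor
    · rintro ⟨hx, hy, hxy, hor⟩
      refine ⟨⟨hx, ?_⟩, ⟨hy, ?_⟩, hxy, hor⟩
      · rintro rfl; exact hno _ hy hxy
      · rintro rfl; exact hno _ hx hxy.symm
    · rintro ⟨hx, hy, hxy, hor⟩
      exact ⟨hx.1, hy.1, hxy, hor⟩
  refine (IH G (A \ {v}) X hA' le_rfl ⟨hXA', ?_, ?_⟩).mono (fun x hx => hx.1)
  · have h1 : (E2 G A (A \ X)).ncard ≤ (E2 G (A \ {v}) ((A \ {v}) \ X)).ncard := by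
      apply Set.ncard_le_ncard _ (Set.toFinite _)
      rintro ⟨x, y⟩ ⟨hx, hy, hxy, hor⟩
      have hxv : x ≠ v := by rintro rfl; exact hno _ hy hxy
      have hyv : y ≠ v := by rintro rfl; exact hno _ hx hxy.symm
      exact ⟨⟨hx, hxv⟩, ⟨hy, hyv⟩, hxy, hor.imp (fun h => ⟨⟨hx, hxv⟩, h.2⟩)
        (fun h => ⟨⟨hy, hyv⟩, h.2⟩)⟩
    have h2 := hM.m1
    have h3 : ((A \ {v}) \ X).ncard ≤ (A \ X).ncard :=
      Set.ncard_le_ncard (fun z hz => ⟨hz.1.1, hz.2⟩) (Set.toFinite _)
    have h4 : 2 * c * ((A \ {v}) \ X).ncard ≤ 2 * c * (A \ X).ncard := Nat.mul_le_mul_left _ h3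
    omega
  · intro P Q g1 g2 g3
    have hvP : v ∉ P := fun h => (g1.leftSub h).2 rfl
    have hvQ : v ∉ Q := fun h => (g1.rightSub h).2 rfl
    have e1 : insert v P ∩ Q = P ∩ Q := by
      ext z
      simp only [Set.mem_inter_iff, Set.mem_insert_iff]
      constructor
      · rintro ⟨h1 | h1, h2⟩
        · exact absurd (h1 ▸ h2) hvQ
        · exact ⟨h1, h2⟩
      · rintro ⟨h1, h2⟩
        exact ⟨Or.inr h1, h2⟩
    have e2 : Q \ insert v P = Q \ P := by
      ext z
      simp only [Set.mem_sdiff, Set.mem_insert_iff]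
      constructor
      · rintro ⟨h1, h2⟩
        exact ⟨h1, fun h => h2 (Or.inr h)⟩
      · rintro ⟨h1, h2⟩
        refine ⟨h1, ?_⟩
        rintro (h | h)
        · exact hvQ (h ▸ h1)
        · exact h2 h
    have hSp : Sp G A (insert v P) Q := by
      refine ⟨?_, ?_⟩
      · rw [Set.insert_union, g1.un]
        ext z
        simp only [Set.mem_insert_iff, Set.mem_sdiff, Set.mem_singleton_iff]
        constructor
        · rintro (rfl | h)
          · exact hv
          · exact h.1
        · intro h
          by_cases hz : z = v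
          · exact Or.inl hz
          · exact Or.inr ⟨h, hz⟩
      · intro x hx y hy hadj
        rw [e2] at hy
        rcases hx.1 with h | h
        · exact hno y (g1.rightSub hy.1).1 (h ▸ hadj)
        · exact g1.no x ⟨h, hx.2⟩ y hy hadj
    have h1 := hM.m2 _ _ hSp (g2.trans (Set.subset_insert _ _)) (by rw [e1]; exact g3)
    rw [e2, hE] at h1
    exact h1

/-- a vertex of small degree -/
theorem low_degree [Finite V] {G : SimpleGraph V} {c : ℕ} {A X : Set V} (hM : Ms G c A X)
    (hXc : X.ncard < 2 * c - 1)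
    (hsm : (E2 G A (A \ X)).ncard ≤ 2 * c * (A \ X).ncard + 2) :
    ∃ v ∈ A \ X, (nb G A v).ncard ≤ 2 * c := by
  classical
  by_contra hcon
  push Not at hcon
  obtain ⟨v, hv⟩ := nonempty_of_viol hM.m1
  -- count
  have h1 : (2 * c + 1) * (A \ X).ncard ≤ (E2 G A (A \ X)).ncard := by
    let T : Finset V := (A \ X).toFinite.toFinset
    let E : Finset (V × V) := (E2 G A (A \ X)).toFinite.toFinset
    have hT : T.card = (A \ X).ncard := (Set.ncard_eq_toFinset_card _ _).symm
    have hE : E.card = (E2 G A (A \ X)).ncard := (Set.ncard_eq_toFinset_card _ _).symm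
    rw [← hT, ← hE]
    let N : V → Finset V := fun v => (nb G A v).toFinite.toFinset
    have h2 : (T.sigma N).card ≤ E.card := by
      apply Finset.card_le_card_of_injOn (fun p => (p.1, p.2))
      · rintro ⟨x, y⟩ hp
        have hp' : x ∈ A \ X ∧ y ∈ nb G A x := by simpa [T, N] using hp
        have : (x, y) ∈ E2 G A (A \ X) := ⟨hp'.1.1, hp'.2.1, hp'.2.2, Or.inl hp'.1⟩
        simpa [E] using this
      · rintro ⟨x, y⟩ _ ⟨x', y'⟩ _ h
        simp only [Prod.mk.injEq] at h
        obtain ⟨rfl, rfl⟩ := h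
        rfl
    rw [Finset.card_sigma] at h2
    refine le_trans ?_ h2
    rw [mul_comm, ← smul_eq_mul]
    apply Finset.card_nsmul_le_sum
    intro x hx
    have hx' : x ∈ A \ X := by simpa [T] using hx
    have := hcon x hx'
    rw [Set.ncard_eq_toFinset_card _ (Set.toFinite _)] at this
    exact this
  rw [add_mul, one_mul] at h1
  have h2 : (A \ X).ncard ≤ 2 := by omega
  have h3 := hcon v hv
  have h4 : (nb G A v).ncard ≤ A.ncard :=
    Set.ncard_le_ncard (fun w hw => hw.1) (Set.toFinite _)
  have h5 := Set.ncard_sdiff_add_ncard_of_subset hM.sub (Set.toFinite _)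
  omega

theorem massed_lk [Finite V] {k : ℕ} (hk : 1 ≤ k) (G : SimpleGraph V) (A X : Set V)
    (hX : X.ncard ≤ 2 * k) (hM : Ms G (32 * k) A X) : Lk G A X := by
  classical
  have main : ∀ n : ℕ, ∀ (G : SimpleGraph V) (A X : Set V), A.ncard = n → X.ncard ≤ 2 * k →
      Ms G (32 * k) A X → Lk G A X := by
    intro n
    induction n using Nat.strong_induction_on with
    | _ n ih =>
      have inner : ∀ m : ℕ, ∀ (G : SimpleGraph V) (A X : Set V), (E2 G A A).ncard = m →
          A.ncard = n → X.ncard ≤ 2 * k → Ms G (32 * k) A X → Lk G A X := by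
        intro m
        induction m using Nat.strong_induction_on with
        | _ m ih2 =>
          intro G A X hm hn hX hM
          have IH : ∀ (G : SimpleGraph V) (A' X' : Set V), A'.ncard < A.ncard →
              X'.ncard ≤ X.ncard → Ms G (32 * k) A' X' → Lk G A' X' :=
            fun G A' X' h1 h2 h3 => ih A'.ncard (by omega) G A' X' rfl (by omega) h3
          by_cases hbig : 2 * (32 * k) * (A \ X).ncard + 2 < (E2 G A (A \ X)).ncard
          · exact del_step hM (by omega) IH
              (fun G' h1 h2 => ih2 _ (by omega) G' A X rfl hn hX h2) hbig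
          by_cases hiso : ∃ v ∈ A \ X, nb G A v = ∅
          · obtain ⟨v, hv, hv'⟩ := hiso
            exact iso_step hM IH hv.1 hv.2 hv'
          push Not at hiso
          obtain ⟨v, hv, hvd⟩ := low_degree hM (by omega) (by omega)
          by_cases hLk : Lk G A X
          · exact hLk
          have hcom : ∀ w ∈ nb G A v, 30 * k ≤ (nb G A w ∩ nb G A v).ncard := by
            intro w hw
            rcases ct_step hM IH hw.2.symm hw.1 hv.1 hv.2 with h | h
            · exact absurd h hLk
            · omega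
          let N : Set V := insert v (nb G A v)
          have hvn : v ∉ nb G A v := fun h => G.loopless.irrefl _ h.2
          have hNA : N ⊆ A := by
            rintro z (rfl | hz)
            · exact hv.1
            · exact hz.1
          have hNc : N.ncard ≤ 64 * k + 1 := by
            have := Set.ncard_insert_le v (nb G A v)
            have : N.ncard ≤ (nb G A v).ncard + 1 := this
            omega
          have hNd : ∀ z ∈ N, 30 * k + 1 ≤ (nb G N z).ncard := by
            rintro z (rfl | hz)
            · obtain ⟨w, hw⟩ : (nb G A z).Nonempty :=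
                hiso z hv
              have h1 := hcom w hw
              have h2 : insert w (nb G A w ∩ nb G A z) ⊆ nb G N z := by
                rintro y (rfl | hy)
                · exact ⟨Or.inr hw, hw.2⟩
                · exact ⟨Or.inr hy.2, hy.2.2⟩
              have h3 := Set.ncard_le_ncard h2 (Set.toFinite _)
              rw [Set.ncard_insert_of_notMem (fun h => G.loopless.irrefl _ h.1.2)
                (Set.toFinite _)] at h3
              omega
            · have h1 := hcom z hz
              have h2 : insert v (nb G A z ∩ nb G A v) ⊆ nb G N z := by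
                rintro y (rfl | hy)
                · exact ⟨Or.inl rfl, hz.2.symm⟩
                · exact ⟨Or.inr hy.2, hy.1.2⟩
              have h3 := Set.ncard_le_ncard h2 (Set.toFinite _)
              rw [Set.ncard_insert_of_notMem (fun h => G.loopless.irrefl _ h.2.2)
                (Set.toFinite _)] at h3
              omega
          obtain ⟨L, hLN, hLc, hL⟩ := dense hk ⟨v, Or.inl rfl⟩ hNc hNd
          have hLA : L ⊆ A := hLN.trans hNA
          have himg : ∀ (Y : Set V) (b : V → V), Y.ncard ≤ 2 * k → (∀ x ∈ Y, b x ∈ L) →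
              Lk G L (b '' Y) := by
            intro Y b hY hb
            apply hL
            · rintro _ ⟨x, hx, rfl⟩; exact hb x hx
            · exact (Set.ncard_image_le (Set.toFinite _)).trans hY
          rcases menger_dich G (A := A) (X := X) (K := L) hM.sub hLA with hF | hS
          · have := Lk.of_fan (Q := L) hF Set.inter_subset_right (fun b hb => himg X b hX hb)
            rwa [Set.union_eq_self_of_subset_right hLA] at this
          · obtain ⟨P, Q, g1, g2, g3, g4, g5⟩ := min_sep G hS
            have h1 := Lk.of_fan (Q := L) g5 Set.inter_subset_right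
              (fun b hb => himg (P ∩ Q) b (by omega) hb)
            rw [Set.union_eq_self_of_subset_right g3] at h1
            refine rigid hM IH ⟨P, Q, g1, g2, g4, ?_, h1⟩
            by_contra hne
            rw [Set.not_nonempty_iff_eq_empty, Set.sdiff_eq_empty] at hne
            have h2 : L ⊆ P ∩ Q := fun z hz => ⟨hne (g3 hz), g3 hz⟩
            have h3 := Set.ncard_le_ncard h2 (Set.toFinite _)
            omega
      intro G A X hn hX hM
      exact inner _ G A X rfl hn hX hM
  exact main _ G A X rfl hX hM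

/-- LINKAGE THEOREM: if `G[A]` has no separation of order less than `2k` and at least `32 k #A`
edges, then it is `k`-linked. -/
theorem linkage [Finite V] {k : ℕ} (hk : 1 ≤ k) (G : SimpleGraph V) (A X : Set V) (hXA : X ⊆ A)
    (hX : X.ncard ≤ 2 * k)
    (hcon : ∀ P Q, Sp G A P Q → (P ∩ Q).ncard < 2 * k → P ⊆ Q ∨ Q ⊆ P)
    (hE : 64 * k * A.ncard ≤ (E2 G A A).ncard) : Lk G A X := by
  classical
  by_cases hX0 : X.ncard = 0
  · intro ι _ s t hs ht hsi hti hst
    have hXe : X = ∅ := (Set.ncard_eq_zero (Set.toFinite _)).1 hX0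
    refine ⟨fun i => ∅, ?_, ?_, ?_, ?_⟩
    · intro i; exact Set.empty_subset _
    · intro i j _ x hx; exact absurd hx (Set.notMem_empty x)
    · intro i x hx; exact absurd hx (Set.notMem_empty x)
    · intro i
      exact absurd (hs i) (by rw [hXe]; exact Set.notMem_empty _)
  apply massed_lk hk G A X hX
  refine ⟨hXA, ?_, ?_⟩
  · have h1 : E2 G A A ⊆ E2 G A (A \ X) ∪ X ×ˢ X := by
      rintro ⟨x, y⟩ ⟨hx, hy, hxy, hor⟩
      simp only at hx hy hxy
      by_cases h1 : x ∈ X
      · by_cases h2 : y ∈ X
        · exact Or.inr ⟨h1, h2⟩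
        · exact Or.inl ⟨hx, hy, hxy, Or.inr ⟨hy, h2⟩⟩
      · exact Or.inl ⟨hx, hy, hxy, Or.inl ⟨hx, h1⟩⟩
    have h2 := Set.ncard_le_ncard h1 (Set.toFinite _)
    have h3 := Set.ncard_union_le (E2 G A (A \ X)) (X ×ˢ X)
    rw [Set.ncard_prod] at h3
    have h4 := Set.ncard_sdiff_add_ncard_of_subset hXA (Set.toFinite _)
    have h5 : X.ncard * X.ncard ≤ 2 * k * X.ncard := Nat.mul_le_mul_right _ hX
    have h6 : 64 * k * A.ncard = 2 * (32 * k) * (A \ X).ncard + 64 * (k * X.ncard) := by
      rw [← h4]; ring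
    have h7 : 2 * k * X.ncard = 2 * (k * X.ncard) := by ring
    have h8 : 0 < k * X.ncard := Nat.mul_pos (by omega) (by omega)
    omega
  · intro P Q g1 g2 g3
    rcases hcon P Q g1 (by omega) with h | h
    · exfalso
      have h1 : X ⊆ P ∩ Q := fun x hx => ⟨g2 hx, h (g2 hx)⟩
      have := Set.ncard_le_ncard h1 (Set.toFinite _)
      omega
    · have h1 : Q \ P = ∅ := Set.sdiff_eq_empty.2 h
      have h2 : E2 G A (∅ : Set V) = ∅ := by
        ext ⟨x, y⟩
        simp [E2]
      rw [h1, h2]
      simp

end Pool.Agent.Helper76.TW
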