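import Pool.Agent.Helper57.TOK.Menger

/-!
# Thomas - Wollan linkage theorem, part 1: sets joining pairs

`Rc G D u v`: `u` and `v` are joined inside `D`.
`Lk G A X`: every family of disjoint pairs of `X` can be joined by disjoint subsets of `A`, which
contain no further element of `X`.
-/

set_option autoImplicit false

namespace Pool.Agent.Helper76.TW

open SimpleGraph

variable {V : Type*}

/-- `u` and `v` are joined inside `D`. -/
def Rc (G : SimpleGraph V) (D : Set V) (u v : V) : Prop :=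
  u ∈ D ∧ Relation.ReflTransGen (fun a b => G.Adj a b ∧ a ∈ D ∧ b ∈ D) u v

theorem Rc.refl {G : SimpleGraph V} {D : Set V} {u : V} (h : u ∈ D) : Rc G D u u :=
  ⟨h, Relation.ReflTransGen.refl⟩

theorem Rc.left {G : SimpleGraph V} {D : Set V} {u v : V} (h : Rc G D u v) : u ∈ D := h.1

theorem Rc.right {G : SimpleGraph V} {D : Set V} {u v : V} (h : Rc G D u v) : v ∈ D := by
  obtain ⟨h1, h2⟩ := h
  induction h2 with
  | refl => exact h1
  | tail _ h3 _ => exact h3.2.2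

theorem Rc.trans {G : SimpleGraph V} {D : Set V} {u v w : V} (h : Rc G D u v)
    (h' : Rc G D v w) : Rc G D u w := ⟨h.1, h.2.trans h'.2⟩

theorem Rc.symm {G : SimpleGraph V} {D : Set V} {u v : V} (h : Rc G D u v) : Rc G D v u := by
  refine ⟨h.right, ?_⟩
  have h2 := h.2
  induction h2 with
  | refl => exact Relation.ReflTransGen.refl
  | tail h3 h4 ih => exact Relation.ReflTransGen.head ⟨h4.1.symm, h4.2.2, h4.2.1⟩ (ih ⟨h.1, h3⟩)

theorem Rc.step {G : SimpleGraph V} {D : Set V} {u v : V} (h : G.Adj u v) (hu : u ∈ D)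
    (hv : v ∈ D) : Rc G D u v := ⟨hu, Relation.ReflTransGen.single ⟨h, hu, hv⟩⟩

theorem Rc.mono {G H : SimpleGraph V} {D E : Set V} {u v : V} (h : Rc G D u v)
    (hG : ∀ a ∈ D, ∀ b ∈ D, G.Adj a b → H.Adj a b) (hD : D ⊆ E) : Rc H E u v :=
  ⟨hD h.1, Relation.ReflTransGen.mono (fun _ _ h => ⟨hG _ h.2.1 _ h.2.2 h.1, hD h.2.1, hD h.2.2⟩)
    _ _ h.2⟩

theorem Rc.mono' {G : SimpleGraph V} {D E : Set V} {u v : V} (h : Rc G D u v)
    (hD : D ⊆ E) : Rc G E u v := h.mono (fun _ _ _ _ h => h) hD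

theorem Rc.of_walk {G : SimpleGraph V} {D : Set V} {u v : V} (p : G.Walk u v)
    (h : ∀ x ∈ p.support, x ∈ D) : Rc G D u v := by
  induction p with
  | nil => exact Rc.refl (h _ (by simp))
  | cons hadj p ih =>
    exact (Rc.step hadj (h _ (by simp)) (h _ (by simp))).trans
      (ih (fun x hx => h x (by simp [hx])))

theorem Rc.exists_walk {G : SimpleGraph V} {D : Set V} {u v : V} (h : Rc G D u v) :
    ∃ p : G.Walk u v, ∀ x ∈ p.support, x ∈ D := by
  obtain ⟨h1, h2⟩ := h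
  induction h2 with
  | refl => exact ⟨Walk.nil, by simpa using h1⟩
  | tail _ h3 ih =>
    obtain ⟨p, hp⟩ := ih
    refine ⟨p.concat h3.1, ?_⟩
    intro x hx
    rw [Walk.support_concat, List.mem_append] at hx
    rcases hx with hx | hx
    · exact hp x hx
    · rw [List.mem_singleton] at hx; rw [hx]; exact h3.2.2

/-- The graph with a clique on `K` added. -/
def cl (G : SimpleGraph V) (K : Set V) : SimpleGraph V where
  Adj x y := G.Adj x y ∨ (x ≠ y ∧ x ∈ K ∧ y ∈ K)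
  symm := by
    constructor
    rintro x y (h | h)
    · exact Or.inl h.symm
    · exact Or.inr ⟨h.1.symm, h.2.2, h.2.1⟩
  loopless := ⟨by rintro x (h | h); exact G.loopless.irrefl x h; exact h.1 rfl⟩

theorem Rc.clique {G : SimpleGraph V} {K D : Set V} {u v : V} (h : Rc (cl G K) D u v) :
    Rc G (D \ K) u v ∨ ∃ a b, a ∈ K ∧ b ∈ K ∧ a ∈ D ∧ b ∈ D ∧ Rc G ((D \ K) ∪ {a}) u a ∧
      Rc G ((D \ K) ∪ {b}) b v := by
  have hv := h.right
  obtain ⟨h1, h2⟩ := h
  clear h1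
  induction h2 using Relation.ReflTransGen.head_induction_on with
  | refl =>
    by_cases hK : v ∈ K
    · exact Or.inr ⟨v, v, hK, hK, hv, hv, Rc.refl (Or.inr rfl), Rc.refl (Or.inr rfl)⟩
    · exact Or.inl (Rc.refl ⟨hv, hK⟩)
  | @head x w h3 _ ih =>
    by_cases hK : x ∈ K
    · rcases ih with ih | ⟨a, b, ha, hb, haD, hbD, h4, h5⟩
      · refine Or.inr ⟨x, x, hK, hK, h3.2.1, h3.2.1, Rc.refl (Or.inr rfl), ?_⟩
        have hw : w ∈ D \ K := ih.1
        have hadj : G.Adj x w := by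
          rcases h3.1 with h | h
          · exact h
          · exact absurd h.2.2 hw.2
        exact (Rc.step hadj (Or.inr rfl) (Or.inl hw)).trans
          (ih.mono' (Set.subset_union_left))
      · exact Or.inr ⟨x, b, hK, hb, h3.2.1, hbD, Rc.refl (Or.inr rfl), h5⟩
    · have hadj : G.Adj x w := by
        rcases h3.1 with h | h
        · exact h
        · exact absurd h.2.1 hK
      have hxDK : x ∈ D \ K := ⟨h3.2.1, hK⟩
      rcases ih with ih | ⟨a, b, ha, hb, haD, hbD, h4, h5⟩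
      · exact Or.inl ((Rc.step hadj hxDK ih.1).trans ih)
      · exact Or.inr ⟨a, b, ha, hb, haD, hbD,
          (Rc.step hadj (Or.inl hxDK) h4.1).trans h4, h5⟩

/-- Every family of disjoint pairs of `X` can be joined by disjoint subsets of `A`. -/
def Lk (G : SimpleGraph V) (A X : Set V) : Prop :=
  ∀ (ι : Type) [Finite ι] (s t : ι → V), (∀ i, s i ∈ X) → (∀ i, t i ∈ X) →
    Function.Injective s → Function.Injective t → (∀ i j, s i ≠ t j) →
    ∃ D : ι → Set V, (∀ i, D i ⊆ A) ∧ (∀ i j, i ≠ j → ∀ x ∈ D i, x ∉ D j) ∧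
      (∀ i, ∀ x ∈ D i, x ∈ X → x = s i ∨ x = t i) ∧ ∀ i, Rc G (D i) (s i) (t i)

theorem Lk.mono {G : SimpleGraph V} {A B X : Set V} (h : Lk G A X) (hAB : A ⊆ B) :
    Lk G B X := by
  intro ι _ s t h1 h2 h3 h4 h5
  obtain ⟨D, h6, h7⟩ := h ι s t h1 h2 h3 h4 h5
  exact ⟨D, fun i => (h6 i).trans hAB, h7⟩

theorem Lk.of_clique {G : SimpleGraph V} {P Q K X : Set V} (hX : X ⊆ P) (hK : P ∩ Q = K)
    (h1 : Lk (cl G K) P X) (h2 : Lk G Q K) : Lk G (P ∪ Q) X := by
  classical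
  intro ι _ s t hs ht hsi hti hst
  obtain ⟨D', hDP, hDd, hDX, hDR⟩ := h1 ι s t hs ht hsi hti hst
  have hc := fun i => (hDR i).clique
  -- the pairs which have to be joined inside `Q`
  have key : ∀ i, ∃ o : Option (V × V), (o = none → Rc G (D' i \ K) (s i) (t i)) ∧
      ∀ a b, o = some (a, b) → a ∈ K ∧ b ∈ K ∧ a ∈ D' i ∧ b ∈ D' i ∧
        Rc G ((D' i \ K) ∪ {a}) (s i) a ∧ Rc G ((D' i \ K) ∪ {b}) b (t i) := by
    intro i
    rcases hc i with h | ⟨a, b, h⟩
    · exact ⟨none, fun _ => h, by simp⟩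
    · refine ⟨some (a, b), by simp, ?_⟩
      intro a' b' hab
      obtain ⟨rfl, rfl⟩ : a = a' ∧ b = b' := by simpa using hab
      exact h
  choose o ho1 ho2 using key
  let J : Type := {i : ι // ∃ a b, o i = some (a, b) ∧ a ≠ b}
  have hJ : ∀ j : J, ∃ ab : V × V, o j.1 = some ab ∧ ab.1 ≠ ab.2 := fun j => by
    obtain ⟨a, b, h, h'⟩ := j.2
    exact ⟨(a, b), h, h'⟩
  choose ab hab1 hab2 using hJ
  have hab3 : ∀ j : J, (ab j).1 ∈ K ∧ (ab j).2 ∈ K ∧ (ab j).1 ∈ D' j.1 ∧ (ab j).2 ∈ D' j.1 ∧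
      Rc G ((D' j.1 \ K) ∪ {(ab j).1}) (s j.1) (ab j).1 ∧
      Rc G ((D' j.1 \ K) ∪ {(ab j).2}) (ab j).2 (t j.1) := fun j =>
    ho2 j.1 _ _ (hab1 j)
  have hdj : ∀ j j' : J, ∀ x, x ∈ D' j.1 → x ∈ D' j'.1 → j = j' := by
    intro j j' x hx hx'
    by_contra hne
    exact hDd j.1 j'.1 (fun h => hne (Subtype.ext h)) x hx hx'
  obtain ⟨E, hEQ, hEd, hEK, hER⟩ := h2 J (fun j => (ab j).1) (fun j => (ab j).2)
    (fun j => (hab3 j).1) (fun j => (hab3 j).2.1)
    (by
      intro j j' hjj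
      have hjj' : (ab j).1 = (ab j').1 := hjj
      exact hdj j j' _ (hab3 j).2.2.1 (hjj' ▸ (hab3 j').2.2.1))
    (by
      intro j j' hjj
      have hjj' : (ab j).2 = (ab j').2 := hjj
      exact hdj j j' _ (hab3 j).2.2.2.1 (hjj' ▸ (hab3 j').2.2.2.1))
    (by
      intro j j' hjj
      have hjj' : (ab j).1 = (ab j').2 := hjj
      have := hdj j j' _ (hab3 j).2.2.1 (hjj' ▸ (hab3 j').2.2.2.1)
      subst this
      exact hab2 j hjj')
  -- the additional pieces
  have key2 : ∀ i, ∃ F : Set V, F ⊆ Q ∧ (∀ x ∈ F, x ∈ K → x ∈ D' i) ∧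
      (F ⊆ K ∨ ∃ j : J, j.1 = i ∧ F = E j) ∧ Rc G ((D' i \ K) ∪ F) (s i) (t i) := by
    intro i
    rcases hoi : o i with _ | ⟨a, b⟩
    · refine ⟨∅, by simp, by simp, Or.inl (by simp), ?_⟩
      simpa using ho1 i hoi
    · obtain ⟨haK, hbK, haD, hbD, h3, h4⟩ := ho2 i a b hoi
      by_cases hne : a = b
      · subst hne
        refine ⟨{a}, ?_, ?_, Or.inl ?_, h3.trans h4⟩
        · rw [Set.singleton_subset_iff]; rw [← hK] at haK; exact haK.2
        · rintro x rfl _; exact haD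
        · rw [Set.singleton_subset_iff]; exact haK
      · have hj : ∃ a b, o i = some (a, b) ∧ a ≠ b := ⟨a, b, hoi, hne⟩
        have e1 : ab ⟨i, hj⟩ = (a, b) := by
          have := hab1 ⟨i, hj⟩
          rw [hoi] at this
          exact (Option.some_inj.1 this).symm
        have h5 := hER ⟨i, hj⟩
        rw [e1] at h5
        refine ⟨E ⟨i, hj⟩, hEQ _, ?_, Or.inr ⟨⟨i, hj⟩, rfl, rfl⟩, ?_⟩
        · intro x hx hxK
          have h6 := hEK _ x hx hxK
          rw [e1] at h6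
          rcases h6 with rfl | rfl
          · exact haD
          · exact hbD
        · refine ((h3.mono' ?_).trans (h5.mono' ?_)).trans (h4.mono' ?_)
          · apply Set.union_subset_union_right
            rw [Set.singleton_subset_iff]; exact h5.left
          · exact Set.subset_union_right
          · apply Set.union_subset_union_right
            rw [Set.singleton_subset_iff]; exact h5.right
  choose F hFQ hFK hFJ hFR using key2
  refine ⟨fun i => (D' i \ K) ∪ F i, ?_, ?_, ?_, hFR⟩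
  · intro i x hx
    rcases hx with hx | hx
    · exact Or.inl (hDP i hx.1)
    · exact Or.inr (hFQ i hx)
  · intro i j hij x hx hx'
    have hcr : ∀ i j, i ≠ j → ∀ x, x ∈ D' i \ K → x ∈ F j → False := by
      intro i j _ x hx hx'
      exact hx.2 (hK ▸ ⟨hDP i hx.1, hFQ j hx'⟩)
    rcases hx with hx | hx <;> rcases hx' with hx' | hx'
    · exact hDd i j hij x hx.1 hx'.1
    · exact hcr i j hij x hx hx'
    · exact hcr j i hij.symm x hx' hx
    · by_cases hxK : x ∈ K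
      · exact hDd i j hij x (hFK i x hx hxK) (hFK j x hx' hxK)
      · rcases hFJ i with h | ⟨k, hk, hFk⟩
        · exact hxK (h hx)
        · rcases hFJ j with h' | ⟨l, hl, hFl⟩
          · exact hxK (h' hx')
          · rw [hFk] at hx; rw [hFl] at hx'
            refine hEd k l ?_ x hx hx'
            rintro rfl
            exact hij (hk.symm.trans hl)
  · intro i x hx hxX
    rcases hx with hx | hx
    · exact hDX i x hx.1 hxX
    · have hxK : x ∈ K := hK ▸ ⟨hX hxX, hFQ i hx⟩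
      exact hDX i x (hFK i x hx hxK) hxX

/-- Contraction of `v` into `u`. -/
def ct (G : SimpleGraph V) (u v : V) : SimpleGraph V where
  Adj x y := x ≠ y ∧ x ≠ v ∧ y ≠ v ∧
    (G.Adj x y ∨ (x = u ∧ G.Adj v y) ∨ (y = u ∧ G.Adj v x))
  symm := by
    constructor
    rintro x y ⟨h1, h2, h3, h4 | h4 | h4⟩
    · exact ⟨h1.symm, h3, h2, Or.inl h4.symm⟩
    · exact ⟨h1.symm, h3, h2, Or.inr (Or.inr h4)⟩
    · exact ⟨h1.symm, h3, h2, Or.inr (Or.inl h4)⟩
  loopless := ⟨fun _ h => h.1 rfl⟩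

theorem Rc.of_ct {G : SimpleGraph V} {u v : V} (huv : G.Adj u v) {D : Set V} {x y : V}
    (h : Rc (ct G u v) D x y) :
    Rc G (D ∪ {z | z = v ∧ u ∈ D}) x y := by
  obtain ⟨h1, h2⟩ := h
  refine ⟨Or.inl h1, ?_⟩
  induction h2 with
  | refl => exact Relation.ReflTransGen.refl
  | tail _ h3 ih =>
    rename_i b c
    apply ih.trans
    obtain ⟨⟨h4, h5, h6, h7⟩, h8, h9⟩ := h3
    rcases h7 with h7 | ⟨rfl, h7⟩ | ⟨rfl, h7⟩
    · exact Relation.ReflTransGen.single ⟨h7, Or.inl h8, Or.inl h9⟩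
    · refine Relation.ReflTransGen.head (b := v) ⟨huv, Or.inl h8, Or.inr ⟨rfl, h8⟩⟩ ?_
      exact Relation.ReflTransGen.single ⟨h7, Or.inr ⟨rfl, h8⟩, Or.inl h9⟩
    · refine Relation.ReflTransGen.head (b := v) ⟨h7.symm, Or.inl h8, Or.inr ⟨rfl, h9⟩⟩ ?_
      exact Relation.ReflTransGen.single ⟨huv.symm, Or.inr ⟨rfl, h9⟩, Or.inl h9⟩

theorem Lk.of_ct {G : SimpleGraph V} {u v : V} (huv : G.Adj u v) {A X : Set V} (hv : v ∈ A)
    (hvX : v ∉ X) (h : Lk (ct G u v) (A \ {v}) X) : Lk G A X := by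
  intro ι _ s t h1 h2 h3 h4 h5
  obtain ⟨D, h6, h7, h8, h9⟩ := h ι s t h1 h2 h3 h4 h5
  refine ⟨fun i => D i ∪ {z | z = v ∧ u ∈ D i}, ?_, ?_, ?_, fun i => (h9 i).of_ct huv⟩
  · rintro i x (hx | hx)
    · exact (h6 i hx).1
    · rw [hx.1]; exact hv
  · rintro i j hij x (hx | hx) (hx' | hx')
    · exact h7 i j hij x hx hx'
    · exact (h6 i hx).2 hx'.1
    · exact (h6 j hx').2 hx.1
    · exact h7 i j hij u hx.2 hx'.2
  · rintro i x (hx | hx) hxX
    · exact h8 i x hx hxX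
    · rw [hx.1] at hxX; exact absurd hxX hvX

end Pool.Agent.Helper76.TW
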