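import Pool.Agent.Helper76.TW.Fan

/-!
# Thomas - Wollan linkage theorem, part 4: dense graphs
-/

set_option autoImplicit false

namespace Pool.Agent.Helper76.TW

open SimpleGraph

variable {V : Type*}

/-- neighbours of `v` in `A` -/
def nb (G : SimpleGraph V) (A : Set V) (v : V) : Set V := {w | w ∈ A ∧ G.Adj v w}

theorem two_card_le {ι : Type} [Finite ι] [Finite V] {K : Set V} (s t : ι → V)
    (hs : ∀ i, s i ∈ K) (ht : ∀ i, t i ∈ K) (hsi : Function.Injective s)
    (hti : Function.Injective t) (hst : ∀ i j, s i ≠ t j) : 2 * Nat.card ι ≤ K.ncard := by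
  have h1 : (Set.range s ∪ Set.range t) ⊆ K := by
    rintro _ (⟨i, rfl⟩ | ⟨i, rfl⟩)
    · exact hs i
    · exact ht i
  have h2 := Set.ncard_le_ncard h1 (Set.toFinite _)
  rw [Set.ncard_union_eq _ (Set.toFinite _) (Set.toFinite _)] at h2
  · rw [← Set.image_univ, ← Set.image_univ, Set.ncard_image_of_injective _ hsi,
      Set.ncard_image_of_injective _ hti, Set.ncard_univ] at h2
    omega
  · rw [Set.disjoint_left]
    rintro _ ⟨i, rfl⟩ ⟨j, hj⟩
    exact hst i j hj.symm

/-- greedy linking -/
theorem link_of_common [Finite V] {G : SimpleGraph V} {k : ℕ} {L : Set V}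
    (h : ∀ u ∈ L, ∀ v ∈ L, u ≠ v → 3 * k ≤ (nb G L u ∩ nb G L v).ncard) {K : Set V}
    (hK : K ⊆ L) (hKc : K.ncard ≤ 2 * k) : Lk G L K := by
  classical
  intro ι _ s t hs ht hsi hti hst
  haveI := Fintype.ofFinite ι
  have hc := two_card_le s t hs ht hsi hti hst
  have hc' : Fintype.card ι ≤ k := by
    rw [← Nat.card_eq_fintype_card]; omega
  let T : ι → Finset V := fun i => ((nb G L (s i) ∩ nb G L (t i)) \ K).toFinite.toFinset
  have hT : ∀ i, k ≤ (T i).card := by
    intro i
    have h1 := h (s i) (hK (hs i)) (t i) (hK (ht i)) (hst i i)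
    have h2 : (T i).card = ((nb G L (s i) ∩ nb G L (t i)) \ K).ncard :=
      (Set.ncard_eq_toFinset_card _ _).symm
    have h3 := Set.le_ncard_diff K (nb G L (s i) ∩ nb G L (t i)) (Set.toFinite _)
    omega
  obtain ⟨m, hm, hmT⟩ := (Finset.all_card_le_biUnion_card_iff_exists_injective T).1 (by
    intro S
    rcases S.eq_empty_or_nonempty with rfl | ⟨i, hi⟩
    · simp
    · have h1 : T i ⊆ S.biUnion T := Finset.subset_biUnion_of_mem T hi
      have h2 := Finset.card_le_card h1
      have h3 := Finset.card_le_univ S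
      have h4 := hT i
      omega)
  have hm' : ∀ i, m i ∈ L ∧ G.Adj (s i) (m i) ∧ G.Adj (t i) (m i) ∧ m i ∉ K := by
    intro i
    have h1 := hmT i
    simp only [T, Set.Finite.mem_toFinset] at h1
    exact ⟨h1.1.1.1, h1.1.1.2, h1.1.2.2, h1.2⟩
  refine ⟨fun i => {s i, m i, t i}, ?_, ?_, ?_, ?_⟩
  · rintro i x (rfl | rfl | rfl)
    · exact hK (hs i)
    · exact (hm' i).1
    · exact hK (ht i)
  · intro i j hij x hx hx'
    have hms : ∀ i j, m i ≠ s j := fun i j h => (hm' i).2.2.2 (h ▸ hs j)
    have hmt : ∀ i j, m i ≠ t j := fun i j h => (hm' i).2.2.2 (h ▸ ht j)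
    rcases hx with rfl | rfl | rfl <;> rcases hx' with h' | h' | h'
    · exact hij (hsi h')
    · exact hms j i h'.symm
    · exact hst i j h'
    · exact hms i j h'
    · exact hij (hm h')
    · exact hmt i j h'
    · exact hst j i h'.symm
    · exact hmt j i h'.symm
    · exact hij (hti h')
  · rintro i x (rfl | rfl | rfl) hxK
    · exact Or.inl rfl
    · exact absurd hxK (hm' i).2.2.2
    · exact Or.inr rfl
  · intro i
    exact (Rc.step (hm' i).2.1 (by simp) (by simp)).trans
      (Rc.step (hm' i).2.2.1.symm (by simp) (by simp))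

theorem Rc.ae {G : SimpleGraph V} {D : Set V} {u v : V} (h : u = v ∨ G.Adj u v) (hu : u ∈ D)
    (hv : v ∈ D) : Rc G D u v := by
  rcases h with rfl | h
  · exact Rc.refl hu
  · exact Rc.step h hu hv

/-- three balls do not fit -/
theorem two_balls [Finite V] {G : SimpleGraph V} {k : ℕ} {M : Set V} (hM : M.ncard ≤ 64 * k + 1)
    (hd : ∀ v ∈ M, 22 * k + 1 ≤ (nb G M v).ncard) {x y : V} (hx : x ∈ M) (hy : y ∈ M)
    (hno : ∀ D : Finset V, ↑D ⊆ M → D.card ≤ 6 → ¬ Rc G (D : Set V) x y) :
    ∃ L ⊆ M, 2 * k ≤ L.ncard ∧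
      ∀ u ∈ L, ∀ v ∈ L, u ≠ v → 3 * k ≤ (nb G L u ∩ nb G L v).ncard := by
  classical
  -- closed balls of radius 1 and 2
  let b1 : V → Set V := fun z => {w | w ∈ M ∧ (z = w ∨ G.Adj z w)}
  let b2 : V → Set V := fun z => {w | ∃ a ∈ b1 z, w ∈ b1 a}
  have hb1 : ∀ z ∈ M, 22 * k + 2 ≤ (b1 z).ncard := by
    intro z hz
    have h1 : insert z (nb G M z) ⊆ b1 z := by
      rintro w (rfl | hw)
      · exact ⟨hz, Or.inl rfl⟩
      · exact ⟨hw.1, Or.inr hw.2⟩
    have h2 := Set.ncard_le_ncard h1 (Set.toFinite _)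
    rw [Set.ncard_insert_of_notMem (by intro h; exact G.loopless.irrefl _ h.2)
      (Set.toFinite _)] at h2
    have := hd z hz
    omega
  have hb1M : ∀ z, b1 z ⊆ M := fun z w hw => hw.1
  have hb2M : ∀ z, b2 z ⊆ M := by
    rintro z w ⟨a, _, hw⟩; exact hw.1
  have hsym : ∀ a b : V, (a = b ∨ G.Adj a b) → (b = a ∨ G.Adj b a) := by
    rintro a b (h | h)
    · exact Or.inl h.symm
    · exact Or.inr h.symm
  -- the balls around `x` and `y` are closed
  have hclosed : ∀ x y : V, x ∈ M → y ∈ M →
      (∀ D : Finset V, ↑D ⊆ M → D.card ≤ 6 → ¬ Rc G (D : Set V) x y) →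
      ∀ w ∈ b2 x, ∀ z ∈ M, G.Adj w z → z ∈ b2 x := by
    intro x y hx hy hno w hw z hz hwz
    by_contra hzn
    obtain ⟨a, ha, hwa⟩ := hw
    have d1 : Disjoint (b1 x) (b1 z) := by
      rw [Set.disjoint_left]
      intro c hc hc'
      exact hzn ⟨c, hc, hz, hsym _ _ hc'.2⟩
    have d2 : Disjoint (b1 x) (b1 y) := by
      rw [Set.disjoint_left]
      intro c hc hc'
      apply hno {x, c, y}
      · intro e he
        simp only [Finset.coe_insert, Finset.coe_singleton, Set.mem_insert_iff,
          Set.mem_singleton_iff] at he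
        rcases he with rfl | rfl | rfl
        · exact hx
        · exact hc.1
        · exact hy
      · exact (Finset.card_le_three).trans (by norm_num)
      · exact (Rc.ae hc.2 (by simp) (by simp)).trans (Rc.ae (hsym _ _ hc'.2) (by simp) (by simp))
    have d3 : Disjoint (b1 z) (b1 y) := by
      rw [Set.disjoint_left]
      intro c hc hc'
      apply hno {x, a, w, z, c, y}
      · intro e he
        simp only [Finset.coe_insert, Finset.coe_singleton, Set.mem_insert_iff,
          Set.mem_singleton_iff] at he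
        rcases he with rfl | rfl | rfl | rfl | rfl | rfl
        · exact hx
        · exact ha.1
        · exact hwa.1
        · exact hz
        · exact hc.1
        · exact hy
      · exact Finset.card_le_six
      · exact ((((Rc.ae ha.2 (by simp) (by simp)).trans (Rc.ae hwa.2 (by simp) (by simp))).trans
          (Rc.step hwz (by simp) (by simp))).trans (Rc.ae hc.2 (by simp) (by simp))).trans
          (Rc.ae (hsym _ _ hc'.2) (by simp) (by simp))
    have h1 : b1 x ∪ b1 z ∪ b1 y ⊆ M :=
      Set.union_subset (Set.union_subset (hb1M x) (hb1M z)) (hb1M y)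
    have h2 := Set.ncard_le_ncard h1 (Set.toFinite _)
    rw [Set.ncard_union_eq (Set.disjoint_union_left.2 ⟨d2, d3⟩) (Set.toFinite _) (Set.toFinite _),
      Set.ncard_union_eq d1 (Set.toFinite _) (Set.toFinite _)] at h2
    have := hb1 x hx
    have := hb1 y hy
    have := hb1 z hz
    omega
  have hnoyx : ∀ D : Finset V, ↑D ⊆ M → D.card ≤ 6 → ¬ Rc G (D : Set V) y x :=
    fun D h1 h2 h3 => hno D h1 h2 h3.symm
  have hcx := hclosed x y hx hy hno
  have hcy := hclosed y x hy hx hnoyx
  have d : Disjoint (b2 x) (b2 y) := by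
    rw [Set.disjoint_left]
    rintro c ⟨a, ha, hc⟩ ⟨a', ha', hc'⟩
    apply hno {x, a, c, a', y}
    · intro e he
      simp only [Finset.coe_insert, Finset.coe_singleton, Set.mem_insert_iff,
        Set.mem_singleton_iff] at he
      rcases he with rfl | rfl | rfl | rfl | rfl
      · exact hx
      · exact ha.1
      · exact hc.1
      · exact ha'.1
      · exact hy
    · exact (Finset.card_le_five).trans (by norm_num)
    · exact (((Rc.ae ha.2 (by simp) (by simp)).trans (Rc.ae hc.2 (by simp) (by simp))).trans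
        (Rc.ae (hsym _ _ hc'.2) (by simp) (by simp))).trans
        (Rc.ae (hsym _ _ ha'.2) (by simp) (by simp))
  have hsum : (b2 x).ncard + (b2 y).ncard ≤ 64 * k + 1 := by
    rw [← Set.ncard_union_eq d (Set.toFinite _) (Set.toFinite _)]
    exact (Set.ncard_le_ncard (Set.union_subset (hb2M x) (hb2M y)) (Set.toFinite _)).trans hM
  have hfin : ∀ x : V, x ∈ M → (∀ w ∈ b2 x, ∀ z ∈ M, G.Adj w z → z ∈ b2 x) →
      (b2 x).ncard ≤ 32 * k → ∃ L ⊆ M, 2 * k ≤ L.ncard ∧
      ∀ u ∈ L, ∀ v ∈ L, u ≠ v → 3 * k ≤ (nb G L u ∩ nb G L v).ncard := by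
    intro x hx hcx hxc
    have hnbe : ∀ v ∈ b2 x, nb G (b2 x) v = nb G M v := by
      intro v hv
      ext w
      exact ⟨fun h => ⟨hb2M x h.1, h.2⟩, fun h => ⟨hcx v hv w h.1 h.2, h.2⟩⟩
    have hxb : x ∈ b2 x := ⟨x, ⟨hx, Or.inl rfl⟩, hx, Or.inl rfl⟩
    refine ⟨b2 x, hb2M x, ?_, ?_⟩
    · have h1 := hd x hx
      rw [← hnbe x hxb] at h1
      have h2 := Set.ncard_le_ncard (show nb G (b2 x) x ⊆ b2 x from fun w hw => hw.1)
        (Set.toFinite _)
      omega
    · intro u hu v hv _
      have h1 := hd u (hb2M x hu)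
      have h2 := hd v (hb2M x hv)
      rw [← hnbe u hu] at h1
      rw [← hnbe v hv] at h2
      have h3 := Set.ncard_union_add_ncard_inter (nb G (b2 x) u) (nb G (b2 x) v)
        (Set.toFinite _) (Set.toFinite _)
      have h4 : (nb G (b2 x) u ∪ nb G (b2 x) v).ncard ≤ (b2 x).ncard :=
        Set.ncard_le_ncard (Set.union_subset (fun w hw => hw.1) (fun w hw => hw.1))
          (Set.toFinite _)
      omega
  by_cases hcase : (b2 x).ncard ≤ 32 * k
  · exact hfin x hx hcx hcase
  · exact hfin y hy hcy (by omega)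

/-- Partial short linkages. -/
def Pt (G : SimpleGraph V) (N K : Set V) {ι : Type} (s t : ι → V) (I : Set ι) : Prop :=
  ∃ E : ι → Set V, (∀ i ∈ I, E i ⊆ N ∧ (E i \ K).ncard ≤ 6 ∧
    (∀ x ∈ E i, x ∈ K → x = s i ∨ x = t i) ∧ Rc G (E i) (s i) (t i)) ∧
    ∀ i ∈ I, ∀ j ∈ I, i ≠ j → ∀ x ∈ E i, x ∉ E j

theorem dense [Finite V] {G : SimpleGraph V} {k : ℕ} (hk : 1 ≤ k) {N : Set V}
    (hNe : N.Nonempty) (hN : N.ncard ≤ 64 * k + 1)
    (hd : ∀ v ∈ N, 30 * k + 1 ≤ (nb G N v).ncard) :
    ∃ L ⊆ N, 2 * k ≤ L.ncard ∧ ∀ K ⊆ L, K.ncard ≤ 2 * k → Lk G L K := by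
  classical
  by_cases hall : ∀ K ⊆ N, K.ncard ≤ 2 * k → Lk G N K
  · obtain ⟨v, hv⟩ := hNe
    have h1 := hd v hv
    have h2 := Set.ncard_le_ncard (show nb G N v ⊆ N from fun w hw => hw.1) (Set.toFinite _)
    exact ⟨N, subset_rfl, by omega, hall⟩
  · push Not at hall
    obtain ⟨K, hKN, hKc, hnot⟩ := hall
    unfold Lk at hnot
    push Not at hnot
    obtain ⟨ι, hfin, s, t, hs, ht, hsi, hti, hst, hnot⟩ := hnot
    haveI := Fintype.ofFinite ι
    have hc := two_card_le s t hs ht hsi hti hst
    -- a maximal partial linkage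
    have hex : ∃ I : Finset ι, Pt G N K s t (I : Set ι) :=
      ⟨∅, fun _ => ∅, by simp, by simp⟩
    obtain ⟨I, hI, hmax⟩ := Finset.exists_max_image
      (Finset.univ.filter fun I : Finset ι => Pt G N K s t (I : Set ι)) Finset.card
      (by obtain ⟨I, hI⟩ := hex; exact ⟨I, by simpa using hI⟩)
    rw [Finset.mem_filter] at hI
    obtain ⟨_, E, hE1, hE2⟩ := hI
    have hIne : ∃ i0, i0 ∉ I := by
      by_contra hcon
      push Not at hcon
      obtain ⟨i, hi⟩ := hnot E (fun i => (hE1 i (hcon i)).1)
        (fun i j hij x hx => hE2 i (hcon i) j (hcon j) hij x hx)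
        (fun i x hx hxK => (hE1 i (hcon i)).2.2.1 x hx hxK)
      exact hi (hE1 i (hcon i)).2.2.2
    obtain ⟨i0, hi0⟩ := hIne
    have hIc : I.card + 1 ≤ k := by
      have h1 : I.card < Fintype.card ι := by
        rw [← Finset.card_univ]
        apply Finset.card_lt_card
        refine ⟨Finset.subset_univ _, fun h => hi0 (h (Finset.mem_univ _))⟩
      rw [Nat.card_eq_fintype_card] at hc
      omega
    let J : Set V := K ∪ ⋃ i ∈ I, (E i \ K)
    have hJ : J.ncard ≤ 8 * k := by
      have h1 : (⋃ i ∈ I, (E i \ K)).ncard ≤ 6 * I.card := by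
        have h2 : (⋃ i ∈ I, (E i \ K)) = ↑(I.biUnion fun i => (E i \ K).toFinite.toFinset) := by
          ext z; simp
        rw [h2, Set.ncard_coe_finset]
        refine (Finset.card_biUnion_le).trans ?_
        rw [mul_comm]
        apply Finset.sum_le_card_nsmul
        intro i hi
        rw [← Set.ncard_eq_toFinset_card]
        exact (hE1 i hi).2.1
      have h3 := Set.ncard_union_le K (⋃ i ∈ I, (E i \ K))
      have : J.ncard ≤ K.ncard + (⋃ i ∈ I, (E i \ K)).ncard := h3
      omega
    let M : Set V := N \ J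
    have hMd : ∀ v ∈ N, 22 * k + 1 ≤ (nb G M v).ncard := by
      intro v hv
      have h1 := hd v hv
      have h2 : nb G N v \ J ⊆ nb G M v := fun w hw => ⟨⟨hw.1.1, hw.2⟩, hw.1.2⟩
      have h3 := Set.ncard_le_ncard h2 (Set.toFinite _)
      have h4 := Set.le_ncard_diff J (nb G N v) (Set.toFinite _)
      omega
    have hMN : M ⊆ N := fun z hz => hz.1
    have hMc : M.ncard ≤ 64 * k + 1 := (Set.ncard_le_ncard hMN (Set.toFinite _)).trans hN
    obtain ⟨x, hx⟩ : (nb G M (s i0)).Nonempty := by
      apply Set.nonempty_of_ncard_ne_zero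
      have := hMd _ (hKN (hs i0)); omega
    obtain ⟨y, hy⟩ : (nb G M (t i0)).Nonempty := by
      apply Set.nonempty_of_ncard_ne_zero
      have := hMd _ (hKN (ht i0)); omega
    have hJK : ∀ z ∈ M, z ∉ K := fun z hz h => hz.2 (Or.inl h)
    have hJE : ∀ z ∈ M, ∀ i ∈ I, z ∉ E i := fun z hz i hi h =>
      hz.2 (Or.inr (by
        simp only [Set.mem_iUnion]
        exact ⟨i, hi, h, hJK z hz⟩))
    have hno : ∀ D : Finset V, ↑D ⊆ M → D.card ≤ 6 → ¬ Rc G (D : Set V) x y := by
      intro D hDM hDc hR
      -- extend the partial linkage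
      have hnew : Pt G N K s t ((insert i0 I : Finset ι) : Set ι) := by
        refine ⟨fun i => if i = i0 then insert (s i0) (insert (t i0) (D : Set V)) else E i,
          ?_, ?_⟩
        · intro i hi
          by_cases hii : i = i0
          · subst hii
            simp only [if_true]
            refine ⟨?_, ?_, ?_, ?_⟩
            · rintro z (rfl | rfl | hz)
              · exact hKN (hs i)
              · exact hKN (ht i)
              · exact hMN (hDM hz)
            · have h1 : (insert (s i) (insert (t i) (D : Set V))) \ K ⊆ (D : Set V) := by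
                rintro z ⟨rfl | rfl | hz, hz'⟩
                · exact absurd (hs i) hz'
                · exact absurd (ht i) hz'
                · exact hz
              have h2 := Set.ncard_le_ncard h1 (Set.toFinite _)
              rw [Set.ncard_coe_finset] at h2
              omega
            · rintro z (rfl | rfl | hz) hzK
              · exact Or.inl rfl
              · exact Or.inr rfl
              · exact absurd hzK (hJK z (hDM hz))
            · refine ((Rc.step hx.2 (Or.inl rfl) (Or.inr (Or.inr hR.left))).trans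
                (hR.mono' ?_)).trans
                (Rc.step hy.2.symm (Or.inr (Or.inr hR.right)) (Or.inr (Or.inl rfl)))
              intro z hz
              exact Or.inr (Or.inr hz)
          · simp only [if_neg hii]
            have hiI : i ∈ I := by
              have : i = i0 ∨ i ∈ I := by simpa using hi
              exact this.resolve_left hii
            exact hE1 i hiI
        · have hcross : ∀ j ∈ I, ∀ z ∈ insert (s i0) (insert (t i0) (D : Set V)), z ∉ E j := by
            rintro j hj z (rfl | rfl | hz) hzE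
            · rcases (hE1 j hj).2.2.1 _ hzE (hs i0) with h | h
              · exact hi0 (hsi h ▸ hj)
              · exact hst _ _ h
            · rcases (hE1 j hj).2.2.1 _ hzE (ht i0) with h | h
              · exact hst _ _ h.symm
              · exact hi0 (hti h ▸ hj)
            · exact hJE z (hDM hz) j hj hzE
          intro i hi j hj hij z hz hz'
          have hi' : i = i0 ∨ i ∈ I := by simpa using hi
          have hj' : j = i0 ∨ j ∈ I := by simpa using hj
          by_cases hii : i = i0
          · have hjj : j ≠ i0 := fun h => hij (hii.trans h.symm)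
            simp only [if_pos hii] at hz
            simp only [if_neg hjj] at hz'
            exact hcross j (hj'.resolve_left hjj) z hz hz'
          · simp only [if_neg hii] at hz
            by_cases hjj : j = i0
            · simp only [if_pos hjj] at hz'
              exact hcross i (hi'.resolve_left hii) z hz' hz
            · simp only [if_neg hjj] at hz'
              exact hE2 i (hi'.resolve_left hii) j (hj'.resolve_left hjj) hij z hz hz'
      have h1 := hmax (insert i0 I) (by simpa using hnew)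
      rw [Finset.card_insert_of_notMem hi0] at h1
      omega
    obtain ⟨L, hL1, hL2, hL3⟩ := two_balls hMc (fun v hv => hMd v (hMN hv)) hx.1 hy.1 hno
    exact ⟨L, hL1.trans hMN, hL2, fun K' hK' hK'c => link_of_common hL3 hK' hK'c⟩

end Pool.Agent.Helper76.TW
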