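import Pool.Agent.Helper76.TW.Massed
import Pool.Agent.Helper76.TW.Dense

/-!
# Thomas - Wollan linkage theorem, part 5: contraction, deletion, isolated vertices
-/

set_option autoImplicit false

namespace Pool.Agent.Helper76.TW

open SimpleGraph

variable {V : Type*}

/-- contraction does not increase the number of pairs away from `u` -/
theorem E2_ct_le [Finite V] {G : SimpleGraph V} {u v : V} {A S : Set V} (hv : v ∈ A) (huS : u ∉ S) :
    (E2 (ct G u v) (A \ {v}) S).ncard ≤ (E2 G A S).ncard := by
  classical
  let f : V × V → V × V := fun p => if G.Adj p.1 p.2 then p else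
    if p.1 = u then (v, p.2) else (p.1, v)
  apply Set.ncard_le_ncard_of_injOn f _ _ (Set.toFinite _)
  · rintro ⟨x, y⟩ ⟨hx, hy, ⟨hne, hxv, hyv, hadj⟩, hor⟩
    simp only at hx hy hne hxv hyv hadj hor
    by_cases hG : G.Adj x y
    · simp only [f, hG, if_true]
      exact ⟨hx.1, hy.1, hG, hor⟩
    · by_cases hxu : x = u
      · simp only [f, hG, if_false, hxu, if_true]
        have h1 : G.Adj v y := by
          rcases hadj with h | h | h
          · exact absurd h hG
          · exact h.2
          · exact absurd (hxu.trans h.1.symm) hne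
        rw [← hxu]
        simp only [hG, if_false]
        exact ⟨hv, hy.1, h1, Or.inr (hor.resolve_left (by rw [hxu]; exact huS))⟩
      · simp only [f, hG, if_false, hxu]
        have h1 : y = u ∧ G.Adj v x := by
          rcases hadj with h | h | h
          · exact absurd h hG
          · exact absurd h.1 hxu
          · exact h
        refine ⟨hx.1, hv, h1.2.symm, Or.inl (hor.resolve_right ?_)⟩
        rw [h1.1]; exact huS
  · rintro ⟨x, y⟩ ⟨hx, hy, ⟨hne, hxv, hyv, hadj⟩, hor⟩ ⟨x', y'⟩
      ⟨hx', hy', ⟨hne', hxv', hyv', hadj'⟩, hor'⟩ hff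
    simp only at hx hy hne hxv hyv hadj hor hx' hy' hne' hxv' hyv' hadj' hor'
    have hy0 : ¬ G.Adj x y → x ≠ u → y = u := by
      intro h1 h2
      rcases hadj with h | h | h
      · exact absurd h h1
      · exact absurd h.1 h2
      · exact h.1
    have hy0' : ¬ G.Adj x' y' → x' ≠ u → y' = u := by
      intro h1 h2
      rcases hadj' with h | h | h
      · exact absurd h h1
      · exact absurd h.1 h2
      · exact h.1
    simp only [f] at hff
    by_cases h1 : G.Adj x y
    · rw [if_pos h1] at hff
      by_cases h1' : G.Adj x' y'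
      · rw [if_pos h1'] at hff; exact hff
      · rw [if_neg h1'] at hff
        split_ifs at hff with h2
        · exact absurd (congrArg Prod.fst hff) hxv
        · exact absurd (congrArg Prod.snd hff) hyv
    · rw [if_neg h1] at hff
      by_cases h1' : G.Adj x' y'
      · rw [if_pos h1'] at hff
        split_ifs at hff with h2
        · exact absurd (congrArg Prod.fst hff).symm hxv'
        · exact absurd (congrArg Prod.snd hff).symm hyv'
      · rw [if_neg h1'] at hff
        by_cases h2 : x = u
        · by_cases h2' : x' = u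
          · rw [if_pos h2, if_pos h2'] at hff
            have := congrArg Prod.snd hff
            simp only at this
            rw [this, h2, h2']
          · rw [if_pos h2, if_neg h2'] at hff
            exact absurd (congrArg Prod.fst hff).symm hxv'
        · by_cases h2' : x' = u
          · rw [if_neg h2, if_pos h2'] at hff
            exact absurd (congrArg Prod.fst hff) hxv
          · rw [if_neg h2, if_neg h2'] at hff
            have := congrArg Prod.fst hff
            simp only at this
            rw [this, hy0 h1 h2, hy0' h1' h2']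

/-- lost pairs -/
theorem E2_ct_ge [Finite V] {G : SimpleGraph V} {u v : V} {A X : Set V}
    (huv : G.Adj u v) (hu : u ∈ A) :
    (E2 G A (A \ X)).ncard ≤ (E2 (ct G u v) (A \ {v}) ((A \ {v}) \ X)).ncard +
      2 * (1 + (nb G A u ∩ nb G A v).ncard + X.ncard) := by
  classical
  let B : Set V := {y | y ∈ A ∧ G.Adj v y ∧ (y = u ∨ G.Adj u y ∨ y ∈ X)}
  have hB : B.ncard ≤ 1 + (nb G A u ∩ nb G A v).ncard + X.ncard := by
    have h1 : B ⊆ {u} ∪ (nb G A u ∩ nb G A v) ∪ X := by
      rintro y ⟨h1, h2, h3 | h3 | h3⟩
      · exact Or.inl (Or.inl h3)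
      · exact Or.inl (Or.inr ⟨⟨h1, h3⟩, ⟨h1, h2⟩⟩)
      · exact Or.inr h3
    have h2 := Set.ncard_le_ncard h1 (Set.toFinite _)
    have h3 := Set.ncard_union_le ({u} ∪ (nb G A u ∩ nb G A v)) X
    have h4 := Set.ncard_union_le {u} (nb G A u ∩ nb G A v)
    rw [Set.ncard_singleton] at h4
    omega
  let W : Set (V × V) := (fun y => (v, y)) '' B ∪ (fun y => (y, v)) '' B
  have hW : W.ncard ≤ 2 * B.ncard := by
    have h1 := Set.ncard_union_le ((fun y => (v, y)) '' B) ((fun y => (y, v)) '' B)
    have h2 := Set.ncard_image_le (f := fun y => (v, y)) (s := B) (Set.toFinite _)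
    have h3 := Set.ncard_image_le (f := fun y => (y, v)) (s := B) (Set.toFinite _)
    have : W.ncard ≤ ((fun y => (v, y)) '' B).ncard + ((fun y => (y, v)) '' B).ncard := h1
    omega
  let g : V × V → V × V := fun p => if p.1 = v then (u, p.2) else if p.2 = v then (p.1, u) else p
  have hvu : v ≠ u := huv.ne'
  have hmain : (E2 G A (A \ X) \ W).ncard ≤
      (E2 (ct G u v) (A \ {v}) ((A \ {v}) \ X)).ncard := by
    have hl : ∀ y, (v, y) ∈ E2 G A (A \ X) \ W → y ∈ A ∧ G.Adj v y ∧ y ≠ u ∧ ¬ G.Adj u y ∧
        y ∉ X := by
      rintro y ⟨⟨_, hy, hadj, _⟩, hW'⟩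
      have hyB : y ∉ B := fun h => hW' (Or.inl ⟨y, h, rfl⟩)
      exact ⟨hy, hadj, fun h => hyB ⟨hy, hadj, Or.inl h⟩,
        fun h => hyB ⟨hy, hadj, Or.inr (Or.inl h)⟩, fun h => hyB ⟨hy, hadj, Or.inr (Or.inr h)⟩⟩
    have hr : ∀ y, (y, v) ∈ E2 G A (A \ X) \ W → y ∈ A ∧ G.Adj v y ∧ y ≠ u ∧ ¬ G.Adj u y ∧
        y ∉ X := by
      rintro y ⟨⟨hy, _, hadj, _⟩, hW'⟩
      have hadj' : G.Adj v y := hadj.symm
      have hyB : y ∉ B := fun h => hW' (Or.inr ⟨y, h, rfl⟩)
      exact ⟨hy, hadj', fun h => hyB ⟨hy, hadj', Or.inl h⟩,
        fun h => hyB ⟨hy, hadj', Or.inr (Or.inl h)⟩, fun h => hyB ⟨hy, hadj', Or.inr (Or.inr h)⟩⟩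
    apply Set.ncard_le_ncard_of_injOn g _ _ (Set.toFinite _)
    · rintro ⟨x, y⟩ hp
      by_cases hx : x = v
      · subst hx
        obtain ⟨h1, h2, h3, h4, h5⟩ := hl y hp
        simp only [g, if_true]
        exact ⟨⟨hu, hvu.symm⟩, ⟨h1, h2.ne'⟩, ⟨h3.symm, hvu.symm, h2.ne', Or.inr (Or.inl ⟨rfl, h2⟩)⟩,
          Or.inr ⟨⟨h1, h2.ne'⟩, h5⟩⟩
      · by_cases hy : y = v
        · subst hy
          obtain ⟨h1, h2, h3, h4, h5⟩ := hr x hp
          simp only [g, hx, if_false, if_true]
          exact ⟨⟨h1, h2.ne'⟩, ⟨hu, hvu.symm⟩, ⟨h3, h2.ne', hvu.symm, Or.inr (Or.inr ⟨rfl, h2⟩)⟩,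
            Or.inl ⟨⟨h1, h2.ne'⟩, h5⟩⟩
        · simp only [g, hx, hy, if_false]
          obtain ⟨⟨h1, h2, h3, h4⟩, _⟩ := hp
          refine ⟨⟨h1, hx⟩, ⟨h2, hy⟩, ⟨h3.ne, hx, hy, Or.inl h3⟩, ?_⟩
          exact h4.imp (fun h => ⟨⟨h1, hx⟩, h.2⟩) (fun h => ⟨⟨h2, hy⟩, h.2⟩)
    · rintro ⟨x, y⟩ hp ⟨x', y'⟩ hp' hgg
      simp only [g] at hgg
      by_cases hx : x = v
      · subst hx
        obtain ⟨h1, h2, h3, h4, h5⟩ := hl y hp
        rw [if_pos rfl] at hgg
        by_cases hx' : x' = x
        · subst hx'
          rw [if_pos rfl] at hgg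
          have := congrArg Prod.snd hgg
          simp only at this
          rw [this]
        · rw [if_neg hx'] at hgg
          by_cases hy' : y' = x
          · subst hy'
            obtain ⟨h1', h2', h3', h4', h5'⟩ := hr x' hp'
            rw [if_pos rfl] at hgg
            exact absurd (congrArg Prod.fst hgg).symm h3'
          · rw [if_neg hy'] at hgg
            have e1 := congrArg Prod.fst hgg
            have e2 := congrArg Prod.snd hgg
            simp only at e1 e2
            subst e1; subst e2
            exact absurd hp'.1.2.2.1 h4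
      · rw [if_neg hx] at hgg
        by_cases hy : y = v
        · subst hy
          obtain ⟨h1, h2, h3, h4, h5⟩ := hr x hp
          rw [if_pos rfl] at hgg
          by_cases hx' : x' = y
          · subst hx'
            rw [if_pos rfl] at hgg
            exact absurd (congrArg Prod.fst hgg) h3
          · rw [if_neg hx'] at hgg
            by_cases hy' : y' = y
            · subst hy'
              rw [if_pos rfl] at hgg
              have := congrArg Prod.fst hgg
              simp only at this
              rw [this]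
            · rw [if_neg hy'] at hgg
              have e1 := congrArg Prod.fst hgg
              have e2 := congrArg Prod.snd hgg
              simp only at e1 e2
              subst e1; subst e2
              exact absurd hp'.1.2.2.1.symm h4
        · rw [if_neg hy] at hgg
          by_cases hx' : x' = v
          · subst hx'
            obtain ⟨h1', h2', h3', h4', h5'⟩ := hl y' hp'
            rw [if_pos rfl] at hgg
            have e1 := congrArg Prod.fst hgg
            have e2 := congrArg Prod.snd hgg
            simp only at e1 e2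
            subst e1; subst e2
            exact absurd hp.1.2.2.1 h4'
          · rw [if_neg hx'] at hgg
            by_cases hy' : y' = v
            · subst hy'
              obtain ⟨h1', h2', h3', h4', h5'⟩ := hr x' hp'
              rw [if_pos rfl] at hgg
              have e1 := congrArg Prod.fst hgg
              have e2 := congrArg Prod.snd hgg
              simp only at e1 e2
              subst e1; subst e2
              exact absurd hp.1.2.2.1.symm h4'
            · rw [if_neg hy'] at hgg
              exact hgg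
  have h1 := Set.le_ncard_sdiff W (E2 G A (A \ X)) (Set.toFinite _)
  omega

theorem ct_step [Finite V] {G : SimpleGraph V} {c : ℕ} {A X : Set V} (hM : Ms G c A X)
    (IH : ∀ (G : SimpleGraph V) (A' X' : Set V), A'.ncard < A.ncard → X'.ncard ≤ X.ncard →
      Ms G c A' X' → Lk G A' X')
    {u v : V} (huv : G.Adj u v) (hu : u ∈ A) (hv : v ∈ A) (hvX : v ∉ X) :
    Lk G A X ∨ c ≤ (nb G A u ∩ nb G A v).ncard + X.ncard := by
  classical
  have hA' : (A \ {v}).ncard < A.ncard := Set.ncard_diff_singleton_lt_of_mem hv (Set.toFinite _)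
  have hXA' : X ⊆ A \ {v} := fun x hx => ⟨hM.sub hx, fun h => hvX (h ▸ hx)⟩
  have hvu : v ≠ u := huv.ne'
  have huA' : u ∈ A \ {v} := ⟨hu, hvu.symm⟩
  by_cases hm : Ms (ct G u v) c (A \ {v}) X
  · exact Or.inl (Lk.of_ct huv hv hvX (IH _ _ _ hA' le_rfl hm))
  by_cases hm1 : 2 * c * ((A \ {v}) \ X).ncard < (E2 (ct G u v) (A \ {v}) ((A \ {v}) \ X)).ncard
  · left
    have hex : ∃ P' Q', Sp (ct G u v) (A \ {v}) P' Q' ∧ X ⊆ P' ∧ (P' ∩ Q').ncard < X.ncard ∧
        2 * c * (Q' \ P').ncard < (E2 (ct G u v) (A \ {v}) (Q' \ P')).ncard := by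
      by_contra hcon
      push Not at hcon
      exact hm ⟨hXA', hm1, hcon⟩
    obtain ⟨P', Q', g1, g2, g3, g4, g5⟩ := viol_min hex
    have hvP : v ∉ P' := fun h => (g1.leftSub h).2 rfl
    have hvQ : v ∉ Q' := fun h => (g1.rightSub h).2 rfl
    have hct : ∀ x y, x ≠ v → y ≠ v → G.Adj x y → (ct G u v).Adj x y :=
      fun x y h1 h2 h3 => ⟨h3.ne, h1, h2, Or.inl h3⟩
    have hPv : ∀ x ∈ P', x ≠ v := fun x hx h => hvP (h ▸ hx)
    have hQv : ∀ x ∈ Q', x ≠ v := fun x hx h => hvQ (h ▸ hx)
    by_cases huQ : u ∈ Q'
    · by_cases huP : u ∈ P'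
      · -- `u` in both
        have e1 : (insert v P') ∩ (insert v Q') = insert v (P' ∩ Q') := by
          ext z
          simp only [Set.mem_inter_iff, Set.mem_insert_iff]
          tauto
        have e2 : (insert v Q') \ (insert v P') = Q' \ P' := by
          ext z
          simp only [Set.mem_sdiff, Set.mem_insert_iff]
          constructor
          · rintro ⟨h1 | h1, h2⟩
            · exact absurd (Or.inl h1) h2
            · exact ⟨h1, fun h => h2 (Or.inr h)⟩
          · rintro ⟨h1, h2⟩
            refine ⟨Or.inr h1, ?_⟩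
            rintro (h | h)
            · exact hQv z h1 h
            · exact h2 h
        refine viol hM IH (P := insert v P') (Q := insert v Q') ⟨?_, ?_⟩
          (g2.trans (Set.subset_insert _ _)) ?_ ?_ ?_
        · have h1 := g1.un
          ext z
          have h2 : z ∈ P' ∪ Q' ↔ z ∈ A \ {v} := by rw [h1]
          simp only [Set.mem_union, Set.mem_sdiff, Set.mem_singleton_iff] at h2
          simp only [Set.mem_union, Set.mem_insert_iff]
          constructor
          · rintro ((rfl | h) | (rfl | h))
            · exact hv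
            · exact (h2.1 (Or.inl h)).1
            · exact hv
            · exact (h2.1 (Or.inr h)).1
          · intro h
            by_cases hz : z = v
            · exact Or.inl (Or.inl hz)
            · rcases h2.2 ⟨h, hz⟩ with h | h
              · exact Or.inl (Or.inr h)
              · exact Or.inr (Or.inr h)
        · intro x hx y hy hadj
          rw [e2] at hy
          have hx' : x ∈ P' \ Q' := by
            refine ⟨?_, fun h => hx.2 (Or.inr h)⟩
            rcases hx.1 with h | h
            · exact absurd (Or.inl h) hx.2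
            · exact h
          exact g1.no x hx' y hy (hct x y (hPv x hx'.1) (hQv y hy.1) hadj)
        · rw [e1]
          have := Set.ncard_insert_le v (P' ∩ Q')
          omega
        · rw [e2]
          refine lt_of_lt_of_le g4 (E2_ct_le hv ?_)
          exact fun h => h.2 huP
        · intro hQA
          have h1 : P' ⊆ P' ∩ Q' := by
            intro z hz
            refine ⟨hz, ?_⟩
            have h2 : z ∈ insert v Q' := by rw [hQA]; exact (g1.leftSub hz).1
            rcases h2 with h2 | h2
            · exact absurd h2 (hPv z hz)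
            · exact h2
          have := Set.ncard_le_ncard (g2.trans h1) (Set.toFinite _)
          omega
      · -- `u` in `Q' \ P'`: rigid
        have hQ'n : Q'.ncard < A.ncard :=
          lt_of_le_of_lt (Set.ncard_le_ncard g1.rightSub (Set.toFinite _)) hA'
        have h1 := IH _ Q' (P' ∩ Q') hQ'n g3.le g5
        have e0 : insert v Q' \ {v} = Q' := by
          ext z
          simp only [Set.mem_sdiff, Set.mem_insert_iff, Set.mem_singleton_iff]
          constructor
          · rintro ⟨h | h, h'⟩
            · exact absurd h h'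
            · exact h
          · intro h
            exact ⟨Or.inr h, hQv z h⟩
        have h2 : Lk G (insert v Q') (P' ∩ Q') :=
          Lk.of_ct huv (Or.inl rfl) (fun h => hvP h.1) (by rw [e0]; exact h1)
        have e1 : P' ∩ (insert v Q') = P' ∩ Q' := by
          ext z
          simp only [Set.mem_inter_iff, Set.mem_insert_iff]
          constructor
          · rintro ⟨h1, h2 | h2⟩
            · exact absurd h2 (hPv z h1)
            · exact ⟨h1, h2⟩
          · rintro ⟨h1, h2⟩
            exact ⟨h1, Or.inr h2⟩
        refine rigid hM IH ⟨P', insert v Q', ⟨?_, ?_⟩, g2, ?_, ⟨v, Or.inl rfl, hvP⟩, ?_⟩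
        · have h1 := g1.un
          ext z
          have h2 : z ∈ P' ∪ Q' ↔ z ∈ A \ {v} := by rw [h1]
          simp only [Set.mem_union, Set.mem_sdiff, Set.mem_singleton_iff] at h2
          simp only [Set.mem_union, Set.mem_insert_iff]
          constructor
          · rintro (h | (rfl | h))
            · exact (h2.1 (Or.inl h)).1
            · exact hv
            · exact (h2.1 (Or.inr h)).1
          · intro h
            by_cases hz : z = v
            · exact Or.inr (Or.inl hz)
            · rcases h2.2 ⟨h, hz⟩ with h | h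
              · exact Or.inl h
              · exact Or.inr (Or.inr h)
        · rintro x ⟨hx, hx'⟩ y ⟨hy, hy'⟩ hadj
          have hxQ : x ∉ Q' := fun h => hx' (Or.inr h)
          have hxv : x ≠ v := hPv x hx
          rcases hy with rfl | hy
          · have hxu : x ≠ u := fun h => hxQ (h ▸ huQ)
            exact g1.no x ⟨hx, hxQ⟩ u ⟨huQ, huP⟩
              ⟨hxu, hxv, hvu.symm, Or.inr (Or.inr ⟨rfl, hadj.symm⟩)⟩
          · exact g1.no x ⟨hx, hxQ⟩ y ⟨hy, hy'⟩ (hct x y hxv (hQv y hy) hadj)
        · rw [e1]; exact g3
        · rw [e1]; exact h2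
    · -- `u` in `P' \ Q'`
      exfalso
      have huP : u ∈ P' := by
        have h2 : u ∈ P' ∪ Q' := by rw [g1.un]; exact huA'
        exact h2.resolve_right huQ
      have e1 : (insert v P') ∩ Q' = P' ∩ Q' := by
        ext z
        simp only [Set.mem_inter_iff, Set.mem_insert_iff]
        constructor
        · rintro ⟨h1 | h1, h2⟩
          · exact absurd h1 (hQv z h2)
          · exact ⟨h1, h2⟩
        · rintro ⟨h1, h2⟩
          exact ⟨Or.inr h1, h2⟩
      have e2 : Q' \ (insert v P') = Q' \ P' := by
        ext z
        simp only [Set.mem_sdiff, Set.mem_insert_iff]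
        constructor
        · rintro ⟨h1, h2⟩
          exact ⟨h1, fun h => h2 (Or.inr h)⟩
        · rintro ⟨h1, h2⟩
          refine ⟨h1, ?_⟩
          rintro (h | h)
          · exact hQv z h1 h
          · exact h2 h
      have hSp : Sp G A (insert v P') Q' := by
        refine ⟨?_, ?_⟩
        · have h1 := g1.un
          ext z
          have h2 : z ∈ P' ∪ Q' ↔ z ∈ A \ {v} := by rw [h1]
          simp only [Set.mem_union, Set.mem_sdiff, Set.mem_singleton_iff] at h2
          simp only [Set.mem_union, Set.mem_insert_iff]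
          constructor
          · rintro ((rfl | h) | h)
            · exact hv
            · exact (h2.1 (Or.inl h)).1
            · exact (h2.1 (Or.inr h)).1
          · intro h
            by_cases hz : z = v
            · exact Or.inl (Or.inl hz)
            · rcases h2.2 ⟨h, hz⟩ with h | h
              · exact Or.inl (Or.inr h)
              · exact Or.inr h
        · intro x hx y hy hadj
          rw [e2] at hy
          rcases hx.1 with rfl | hx1
          · have huy : u ≠ y := fun h => huQ (h ▸ hy.1)
            exact g1.no u ⟨huP, huQ⟩ y hy ⟨huy, hvu.symm, hQv y hy.1, Or.inr (Or.inl ⟨rfl, hadj⟩)⟩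
          · exact g1.no x ⟨hx1, hx.2⟩ y hy (hct x y (hPv x hx1) (hQv y hy.1) hadj)
      have h1 := hM.m2 _ _ hSp (g2.trans (Set.subset_insert _ _)) (by rw [e1]; exact g3)
      rw [e2] at h1
      have h2 : (E2 (ct G u v) (A \ {v}) (Q' \ P')).ncard ≤ (E2 G A (Q' \ P')).ncard :=
        E2_ct_le hv (fun h => huQ h.1)
      omega
  · right
    have h1 := E2_ct_ge (X := X) huv hu
    have h2 := hM.m1
    have h3 : (A \ X).ncard = ((A \ {v}) \ X).ncard + 1 := by
      have e : A \ X = insert v ((A \ {v}) \ X) := by
        ext z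
        simp only [Set.mem_sdiff, Set.mem_insert_iff, Set.mem_singleton_iff]
        constructor
        · rintro ⟨h1, h2⟩
          by_cases hz : z = v
          · exact Or.inl hz
          · exact Or.inr ⟨⟨h1, hz⟩, h2⟩
        · rintro (rfl | ⟨⟨h1, _⟩, h2⟩)
          · exact ⟨hv, hvX⟩
          · exact ⟨h1, h2⟩
      rw [e, Set.ncard_insert_of_notMem (by simp) (Set.toFinite _)]
    rw [h3, mul_add, mul_one] at h2
    omega

end Pool.Agent.Helper76.TW
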