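import Pool.Agent.Helper76.TW.Basic

/-!
# Thomas - Wollan linkage theorem, part 2: fans and separations
-/

set_option autoImplicit false

namespace Pool.Agent.Helper76.TW

open SimpleGraph

variable {V : Type*}

theorem Lk.anti {G : SimpleGraph V} {A X Y : Set V} (h : Lk G A X) (hY : Y ⊆ X) : Lk G A Y := by
  intro ι _ s t h1 h2 h3 h4 h5
  obtain ⟨D, h6, h7, h8, h9⟩ := h ι s t (fun i => hY (h1 i)) (fun i => hY (h2 i)) h3 h4 h5
  exact ⟨D, h6, h7, fun i x hx hxY => h8 i x hx (hY hxY), h9⟩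

/-- Disjoint paths in `P` from all elements of `X` to `K`. -/
def Fan (G : SimpleGraph V) (P X K : Set V) : Prop :=
  ∃ (b : V → V) (T : V → Set V),
    (∀ x ∈ X, b x ∈ K ∧ T x ⊆ P ∧ Rc G (T x) x (b x) ∧ ∀ z ∈ T x, z ∈ K → z = b x) ∧
    ∀ x ∈ X, ∀ y ∈ X, x ≠ y → ∀ z ∈ T x, z ∉ T y

theorem Lk.of_fan {G : SimpleGraph V} {P Q K X : Set V} (hF : Fan G P X K) (hPQ : P ∩ Q ⊆ K)
    (h : ∀ b : V → V, (∀ x ∈ X, b x ∈ K) → Lk G Q (b '' X)) : Lk G (P ∪ Q) X := by
  obtain ⟨b, T, h1, h2⟩ := hF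
  intro ι _ s t hs ht hsi hti hst
  have hbi : ∀ x ∈ X, ∀ y ∈ X, b x = b y → x = y := by
    intro x hx y hy hxy
    by_contra hne
    exact h2 x hx y hy hne _ (h1 x hx).2.2.1.right (hxy ▸ (h1 y hy).2.2.1.right)
  obtain ⟨E, hE1, hE2, hE3, hE4⟩ := h b (fun x hx => (h1 x hx).1) ι (fun i => b (s i))
    (fun i => b (t i)) (fun i => ⟨_, hs i, rfl⟩) (fun i => ⟨_, ht i, rfl⟩)
    (fun i j hij => hsi (hbi _ (hs i) _ (hs j) hij))
    (fun i j hij => hti (hbi _ (ht i) _ (ht j) hij))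
    (fun i j hij => hst i j (hbi _ (hs i) _ (ht j) hij))
  -- intersections of `E i` with the paths
  have hET : ∀ i, ∀ x ∈ X, ∀ z ∈ E i, z ∈ T x → x = s i ∨ x = t i := by
    intro i x hx z hz hzT
    have hzK : z ∈ K := hPQ ⟨(h1 x hx).2.1 hzT, hE1 i hz⟩
    have hzb := (h1 x hx).2.2.2 z hzT hzK
    rcases hE3 i z hz (hzb ▸ ⟨x, hx, rfl⟩) with h4 | h4
    · exact Or.inl (hbi _ hx _ (hs i) (hzb ▸ h4))
    · exact Or.inr (hbi _ hx _ (ht i) (hzb ▸ h4))
  refine ⟨fun i => T (s i) ∪ E i ∪ T (t i), ?_, ?_, ?_, ?_⟩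
  · rintro i x ((hx | hx) | hx)
    · exact Or.inl ((h1 _ (hs i)).2.1 hx)
    · exact Or.inr (hE1 i hx)
    · exact Or.inl ((h1 _ (ht i)).2.1 hx)
  · intro i j hij x hx hx'
    have hss : s i ≠ s j := fun h => hij (hsi h)
    have htt : t i ≠ t j := fun h => hij (hti h)
    rcases hx with (hx | hx) | hx <;> rcases hx' with (hx' | hx') | hx'
    · exact h2 _ (hs i) _ (hs j) hss x hx hx'
    · rcases hET j _ (hs i) x hx' hx with h | h
      · exact hss h
      · exact hst i j h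
    · exact h2 _ (hs i) _ (ht j) (hst i j) x hx hx'
    · rcases hET i _ (hs j) x hx hx' with h | h
      · exact hss h.symm
      · exact hst j i h
    · exact hE2 i j hij x hx hx'
    · rcases hET i _ (ht j) x hx hx' with h | h
      · exact hst i j h.symm
      · exact htt h.symm
    · exact h2 _ (ht i) _ (hs j) (fun h => hst j i h.symm) x hx hx'
    · rcases hET j _ (ht i) x hx' hx with h | h
      · exact hst j i h.symm
      · exact htt h
    · exact h2 _ (ht i) _ (ht j) htt x hx hx'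
  · intro i x hx hxX
    have hxT : x ∈ T x := (h1 x hxX).2.2.1.left
    rcases hx with (hx | hx) | hx
    · left
      by_contra hne
      exact h2 _ hxX _ (hs i) hne x hxT hx
    · exact hET i x hxX x hx hxT
    · right
      by_contra hne
      exact h2 _ hxX _ (ht i) hne x hxT hx
  · intro i
    have e1 := (h1 _ (hs i)).2.2.1
    have e2 := (h1 _ (ht i)).2.2.1.symm
    refine ((e1.mono' ?_).trans ((hE4 i).mono' ?_)).trans (e2.mono' ?_)
    · exact fun x hx => Or.inl (Or.inl hx)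
    · exact fun x hx => Or.inl (Or.inr hx)
    · exact fun x hx => Or.inr hx

/-- Restriction of a graph to a set. -/
def rs (G : SimpleGraph V) (A : Set V) : SimpleGraph V where
  Adj x y := G.Adj x y ∧ x ∈ A ∧ y ∈ A
  symm := ⟨fun _ _ h => ⟨h.1.symm, h.2.2, h.2.1⟩⟩
  loopless := ⟨fun _ h => G.loopless.irrefl _ h.1⟩

theorem first_hit {G : SimpleGraph V} {L : Set V} {u v : V} (p : G.Walk u v) (hv : v ∈ L) :
    ∃ (w : V) (D : Set V), w ∈ L ∧ (∀ x ∈ D, x ∈ p.support) ∧ Rc G D u w ∧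
      ∀ z ∈ D, z ∈ L → z = w := by
  induction p with
  | nil => exact ⟨_, {_}, hv, by simp, Rc.refl rfl, fun z hz _ => hz⟩
  | @cons a b c hadj p ih =>
    by_cases ha : a ∈ L
    · exact ⟨a, {a}, ha, by simp, Rc.refl rfl, fun z hz _ => hz⟩
    · obtain ⟨w, D, h1, h2, h3, h4⟩ := ih hv
      refine ⟨w, insert a D, h1, ?_, ?_, ?_⟩
      · rintro x (rfl | hx)
        · simp
        · simp [h2 x hx]
      · exact (Rc.step hadj (Or.inl rfl) (Or.inr h3.left)).trans
          (h3.mono' (Set.subset_insert _ _))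
      · rintro z (rfl | hz) hzL
        · exact absurd hzL ha
        · exact h4 z hz hzL

theorem walk_rs_mem {G : SimpleGraph V} {A : Set V} {u v : V} (p : (rs G A).Walk u v)
    (hu : u ∈ A) : ∀ x ∈ p.support, x ∈ A := by
  induction p with
  | nil => simpa using hu
  | cons hadj p ih =>
    intro x hx
    rw [Walk.support_cons, List.mem_cons] at hx
    rcases hx with rfl | hx
    · exact hu
    · exact ih hadj.2.2 x hx

theorem Fan.of_linked [Finite V] {G : SimpleGraph V} {A X K : Set V} (hX : X ⊆ A)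
    (h : Helper57.TOK.Linked (rs G A) X K X.ncard) : Fan G A X K := by
  classical
  obtain ⟨a, b, p, h1, h2⟩ := h
  have hai : Function.Injective a := by
    intro i j hij
    by_contra hne
    have h3 : a i ∈ (p j).support :=
      Eq.subst (motive := fun z => z ∈ (p j).support) hij.symm (p j).start_mem_support
    exact h2 i j hne (a i) (p i).start_mem_support h3
  have hsurj : ∀ x ∈ X, ∃ i, a i = x := by
    have hr : Set.range a = X := by
      apply Set.eq_of_subset_of_ncard_le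
      · rintro _ ⟨i, rfl⟩; exact (h1 i).1
      · rw [← Set.image_univ, Set.ncard_image_of_injective _ hai, Set.ncard_univ]
        simp
      · exact Set.toFinite _
    intro x hx
    rw [← hr] at hx
    exact hx
  have key : ∀ x : V, ∃ (w : V) (D : Set V), x ∈ X → (w ∈ K ∧ D ⊆ A ∧ Rc G D x w ∧
      (∀ z ∈ D, z ∈ K → z = w) ∧ ∃ i, a i = x ∧ ∀ z ∈ D, z ∈ (p i).support) := by
    intro x
    by_cases hx : x ∈ X
    · obtain ⟨i, hi⟩ := hsurj x hx
      obtain ⟨w, D, h3, h4, h5, h6⟩ := first_hit (p i) (h1 i).2.1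
      refine ⟨w, D, fun _ => ⟨h3, ?_, ?_, h6, i, hi, h4⟩⟩
      · intro z hz
        exact walk_rs_mem (p i) (hX (h1 i).1) z (h4 z hz)
      · rw [← hi]
        exact h5.mono (fun _ _ _ _ h => h.1) subset_rfl
    · exact ⟨x, ∅, fun h => absurd h hx⟩
  choose w D hwD using key
  refine ⟨w, D, fun x hx => ⟨(hwD x hx).1, (hwD x hx).2.1, (hwD x hx).2.2.1,
    (hwD x hx).2.2.2.1⟩, ?_⟩
  intro x hx y hy hxy z hz hz'
  obtain ⟨i, hi, hi'⟩ := (hwD x hx).2.2.2.2
  obtain ⟨j, hj, hj'⟩ := (hwD y hy).2.2.2.2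
  refine h2 i j ?_ z (hi' z hz) (hj' z hz')
  rintro rfl
  exact hxy (hi.symm.trans hj)

/-- A separation of `G[A]`. -/
structure Sp (G : SimpleGraph V) (A P Q : Set V) : Prop where
  un : P ∪ Q = A
  no : ∀ x ∈ P \ Q, ∀ y ∈ Q \ P, ¬ G.Adj x y

theorem menger_dich [Finite V] (G : SimpleGraph V) {A X K : Set V} (hX : X ⊆ A) (hK : K ⊆ A) :
    Fan G A X K ∨ ∃ P Q, Sp G A P Q ∧ X ⊆ P ∧ K ⊆ Q ∧ (P ∩ Q).ncard < X.ncard := by
  classical
  by_cases h : ∀ S : Finset V, S.card < X.ncard → ¬ Helper57.TOK.Sep (rs G A) X K S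
  · exact Or.inl (Fan.of_linked hX (Helper57.TOK.menger _ _ _ _ h))
  · right
    push Not at h
    obtain ⟨S, hS, hsep⟩ := h
    let R : Set V := {z | ∃ x ∈ X, Rc G (A \ S) x z}
    have hRA : ∀ z ∈ R, z ∈ A ∧ z ∉ S := by
      rintro z ⟨x, _, hz⟩
      exact hz.right
    refine ⟨R ∪ (S ∩ A), A \ R, ⟨?_, ?_⟩, ?_, ?_, ?_⟩
    · ext z
      simp only [Set.mem_union, Set.mem_inter_iff, Set.mem_sdiff, Finset.mem_coe]
      constructor
      · rintro ((h | h) | h)
        · exact (hRA z h).1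
        · exact h.2
        · exact h.1
      · intro h
        by_cases hz : z ∈ R
        · exact Or.inl (Or.inl hz)
        · exact Or.inr ⟨h, hz⟩
    · rintro x ⟨hx, hx'⟩ y ⟨hy, hy'⟩ hadj
      have hxR : x ∈ R := by
        rcases hx with hx | hx
        · exact hx
        · by_contra hxR
          exact hx' ⟨hx.2, hxR⟩
      apply hy.2
      obtain ⟨x0, hx0, hR⟩ := hxR
      refine ⟨x0, hx0, hR.trans (Rc.step hadj hR.right ⟨hy.1, ?_⟩)⟩
      intro hyS
      exact hy' (Or.inr ⟨hyS, hy.1⟩)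
    · intro x hx
      by_cases hxS : x ∈ S
      · exact Or.inr ⟨hxS, hX hx⟩
      · exact Or.inl ⟨x, hx, Rc.refl ⟨hX hx, hxS⟩⟩
    · intro z hz
      refine ⟨hK hz, ?_⟩
      rintro ⟨x, hx, hR⟩
      have hR' : Rc (rs G A) (A \ S) x z := hR.mono (fun a ha b hb h => ⟨h, ha.1, hb.1⟩) subset_rfl
      obtain ⟨p, hp⟩ := hR'.exists_walk
      obtain ⟨y, hy, hyS⟩ := hsep x hx z hz p
      exact (hp y hy).2 hyS
    · refine lt_of_le_of_lt ?_ hS
      rw [← Set.ncard_coe_finset]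
      apply Set.ncard_le_ncard _ (Set.toFinite _)
      rintro z ⟨hz | hz, hz'⟩
      · exact absurd hz hz'.2
      · exact hz.1

theorem Sp.glue {G : SimpleGraph V} {A P Q P' Q' : Set V} (h : Sp G A P Q)
    (h' : Sp G Q P' Q') (hP : P ∩ Q ⊆ P') :
    Sp G A (P ∪ P') Q' ∧ (P ∪ P') ∩ Q' = P' ∩ Q' ∧ Q' \ (P ∪ P') = Q' \ P' := by
  have hQ' : Q' ⊆ Q := by rw [← h'.un]; exact Set.subset_union_right
  have hP' : P' ⊆ Q := by rw [← h'.un]; exact Set.subset_union_left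
  refine ⟨⟨?_, ?_⟩, ?_, ?_⟩
  · rw [Set.union_assoc, h'.un, h.un]
  · rintro x ⟨hx, hx'⟩ y ⟨hy, hy'⟩ hadj
    have hyP : y ∉ P := fun h => hy' (Or.inl h)
    have hyP' : y ∉ P' := fun h => hy' (Or.inr h)
    by_cases hxP' : x ∈ P'
    · exact h'.no x ⟨hxP', hx'⟩ y ⟨hy, hyP'⟩ hadj
    · have hxP : x ∈ P := by
        rcases hx with hx | hx
        · exact hx
        · exact absurd hx hxP'
      have hxQ : x ∉ Q := fun h => hxP' (hP ⟨hxP, h⟩)
      exact h.no x ⟨hxP, hxQ⟩ y ⟨hQ' hy, hyP⟩ hadj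
  · ext z
    constructor
    · rintro ⟨hz | hz, hz'⟩
      · exact ⟨hP ⟨hz, hQ' hz'⟩, hz'⟩
      · exact ⟨hz, hz'⟩
    · rintro ⟨hz, hz'⟩
      exact ⟨Or.inr hz, hz'⟩
  · ext z
    constructor
    · rintro ⟨hz, hz'⟩
      exact ⟨hz, fun h => hz' (Or.inr h)⟩
    · rintro ⟨hz, hz'⟩
      refine ⟨hz, ?_⟩
      rintro (h3 | h3)
      · exact hz' (hP ⟨h3, hQ' hz⟩)
      · exact hz' h3

end Pool.Agent.Helper76.TW
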