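import Pool.Agent.Helper76.TW.Fan

/-!
# Thomas - Wollan linkage theorem, part 3: massed pairs and rigid separations
-/

set_option autoImplicit false

namespace Pool.Agent.Helper76.TW

open SimpleGraph

variable {V : Type*}

theorem Lk.mono_graph {G H : SimpleGraph V} {A X : Set V} (h : Lk G A X) (hGH : G ≤ H) :
    Lk H A X := by
  intro ι _ s t h1 h2 h3 h4 h5
  obtain ⟨D, h6, h7, h8, h9⟩ := h ι s t h1 h2 h3 h4 h5
  exact ⟨D, h6, h7, h8, fun i => (h9 i).mono (fun _ _ _ _ h => hGH h) subset_rfl⟩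

/-- ordered adjacent pairs in `A` with an element in `B` -/
def E2 (G : SimpleGraph V) (A B : Set V) : Set (V × V) :=
  {p | p.1 ∈ A ∧ p.2 ∈ A ∧ G.Adj p.1 p.2 ∧ (p.1 ∈ B ∨ p.2 ∈ B)}

/-- Massed pair. -/
structure Ms (G : SimpleGraph V) (c : ℕ) (A X : Set V) : Prop where
  sub : X ⊆ A
  m1 : 2 * c * (A \ X).ncard < (E2 G A (A \ X)).ncard
  m2 : ∀ P Q, Sp G A P Q → X ⊆ P → (P ∩ Q).ncard < X.ncard →
    (E2 G A (Q \ P)).ncard ≤ 2 * c * (Q \ P).ncard

theorem Sp.leftSub {G : SimpleGraph V} {A P Q : Set V} (h : Sp G A P Q) : P ⊆ A := by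
  rw [← h.un]; exact Set.subset_union_left

theorem Sp.rightSub {G : SimpleGraph V} {A P Q : Set V} (h : Sp G A P Q) : Q ⊆ A := by
  rw [← h.un]; exact Set.subset_union_right

theorem min_sep [Finite V] (G : SimpleGraph V) {A X L : Set V} {m : ℕ}
    (h : ∃ P Q, Sp G A P Q ∧ X ⊆ P ∧ L ⊆ Q ∧ (P ∩ Q).ncard < m) :
    ∃ P Q, Sp G A P Q ∧ X ⊆ P ∧ L ⊆ Q ∧ (P ∩ Q).ncard < m ∧ Fan G Q (P ∩ Q) L := by
  obtain ⟨P, Q, h1, h2, h3, h4⟩ := h
  have key : ∀ n P Q, Sp G A P Q → X ⊆ P → L ⊆ Q → (P ∩ Q).ncard < m → (P ∩ Q).ncard = n →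
      ∃ P Q, Sp G A P Q ∧ X ⊆ P ∧ L ⊆ Q ∧ (P ∩ Q).ncard < m ∧ Fan G Q (P ∩ Q) L := by
    intro n
    induction n using Nat.strong_induction_on with
    | _ n ih =>
      intro P Q h1 h2 h3 h4 h5
      rcases menger_dich G (A := Q) (X := P ∩ Q) (K := L) Set.inter_subset_right h3 with
        h | ⟨P', Q', h6, h7, h8, h9⟩
      · exact ⟨P, Q, h1, h2, h3, h4, h⟩
      · obtain ⟨h10, h11, _⟩ := h1.glue h6 h7
        refine ih (P' ∩ Q').ncard (by omega) (P ∪ P') Q' h10
          (h2.trans Set.subset_union_left) h8 ?_ ?_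
        · rw [h11]; omega
        · rw [h11]
  exact key _ P Q h1 h2 h3 h4 rfl

/-- pairs with an end in `Q \ P` are inside `Q` -/
theorem E2_sep {G : SimpleGraph V} {A P Q : Set V} (h : Sp G A P Q) :
    E2 G A (Q \ P) = E2 G Q (Q \ P) := by
  have hAP : ∀ x ∈ A, x ∉ Q → x ∈ P \ Q := by
    intro x hx hxQ
    rw [← h.un] at hx
    rcases hx with hx | hx
    · exact ⟨hx, hxQ⟩
    · exact absurd hx hxQ
  ext ⟨x, y⟩
  constructor
  · rintro ⟨hx, hy, hxy, hor⟩
    simp only at hx hy hxy hor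
    have hxQ : x ∈ Q := by
      by_contra hxQ
      rcases hor with h1 | h1
      · exact hxQ h1.1
      · exact h.no x (hAP x hx hxQ) y h1 hxy
    have hyQ : y ∈ Q := by
      by_contra hyQ
      rcases hor with h1 | h1
      · exact h.no y (hAP y hy hyQ) x h1 hxy.symm
      · exact hyQ h1.1
    exact ⟨hxQ, hyQ, hxy, hor⟩
  · rintro ⟨hx, hy, hxy, hor⟩
    exact ⟨h.rightSub hx, h.rightSub hy, hxy, hor⟩

theorem E2_mono {G H : SimpleGraph V} {A B A' B' : Set V} (hG : G ≤ H) (hA : A ⊆ A')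
    (hB : B ⊆ B') : E2 G A B ⊆ E2 H A' B' := by
  rintro ⟨x, y⟩ ⟨hx, hy, hxy, hor⟩
  exact ⟨hA hx, hA hy, hG hxy, hor.imp (fun h => hB h) (fun h => hB h)⟩

theorem nonempty_of_viol [Finite V] {G : SimpleGraph V} {A B : Set V} {n : ℕ}
    (h : n < (E2 G A B).ncard) : B.Nonempty := by
  have h1 : (E2 G A B).Nonempty := by
    apply Set.nonempty_of_ncard_ne_zero; omega
  obtain ⟨⟨x, y⟩, _, _, _, h2 | h2⟩ := h1
  · exact ⟨x, h2⟩
  · exact ⟨y, h2⟩

/-- The minimal violating separation gives a massed pair. -/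
theorem viol_min [Finite V] {G : SimpleGraph V} {c m : ℕ} {A X : Set V}
    (h : ∃ P Q, Sp G A P Q ∧ X ⊆ P ∧ (P ∩ Q).ncard < m ∧
      2 * c * (Q \ P).ncard < (E2 G A (Q \ P)).ncard) :
    ∃ P Q, Sp G A P Q ∧ X ⊆ P ∧ (P ∩ Q).ncard < m ∧
      2 * c * (Q \ P).ncard < (E2 G A (Q \ P)).ncard ∧ Ms G c Q (P ∩ Q) := by
  obtain ⟨P, Q, h1, h2, h3, h4⟩ := h
  have key : ∀ n P Q, Sp G A P Q → X ⊆ P → (P ∩ Q).ncard < m →
      2 * c * (Q \ P).ncard < (E2 G A (Q \ P)).ncard → Q.ncard = n →
      ∃ P Q, Sp G A P Q ∧ X ⊆ P ∧ (P ∩ Q).ncard < m ∧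
      2 * c * (Q \ P).ncard < (E2 G A (Q \ P)).ncard ∧ Ms G c Q (P ∩ Q) := by
    intro n
    induction n using Nat.strong_induction_on with
    | _ n ih =>
      intro P Q h1 h2 h3 h4 h5
      by_cases hm : Ms G c Q (P ∩ Q)
      · exact ⟨P, Q, h1, h2, h3, h4, hm⟩
      · have hd : Q \ (P ∩ Q) = Q \ P := by
          ext z; simp
        have hex : ∃ P' Q', Sp G Q P' Q' ∧ P ∩ Q ⊆ P' ∧ (P' ∩ Q').ncard < (P ∩ Q).ncard ∧
            2 * c * (Q' \ P').ncard < (E2 G Q (Q' \ P')).ncard := by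
          by_contra hcon
          push Not at hcon
          apply hm
          refine ⟨Set.inter_subset_right, ?_, hcon⟩
          rw [hd, ← E2_sep h1]
          exact h4
        obtain ⟨P', Q', h6, h7, h8, h9⟩ := hex
        obtain ⟨h10, h11, h12⟩ := h1.glue h6 h7
        have hQ' : Q' ⊆ Q := h6.rightSub
        have hne : Q' ≠ Q := by
          rintro rfl
          have : P ∩ Q' ⊆ P' ∩ Q' := fun z hz => ⟨h7 hz, hz.2⟩
          have := Set.ncard_le_ncard this (Set.toFinite _)
          omega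
        have hlt : Q'.ncard < n := by
          rw [← h5]
          exact Set.ncard_lt_ncard (lt_of_le_of_ne hQ' hne) (Set.toFinite _)
        refine ih Q'.ncard hlt (P ∪ P') Q' h10 (h2.trans Set.subset_union_left) ?_ ?_ rfl
        · rw [h11]; omega
        · rw [h12]
          refine lt_of_lt_of_le h9 (Set.ncard_le_ncard ?_ (Set.toFinite _))
          exact E2_mono le_rfl h1.rightSub subset_rfl
  exact key _ P Q h1 h2 h3 h4 rfl

/-- Rigid separations of small order. -/
theorem rigid [Finite V] {G : SimpleGraph V} {c : ℕ} {A X : Set V} (hM : Ms G c A X)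
    (IH : ∀ (G : SimpleGraph V) (A' X' : Set V), A'.ncard < A.ncard → X'.ncard ≤ X.ncard →
      Ms G c A' X' → Lk G A' X')
    (h : ∃ P Q, Sp G A P Q ∧ X ⊆ P ∧ (P ∩ Q).ncard < X.ncard ∧ (Q \ P).Nonempty ∧
      Lk G Q (P ∩ Q)) : Lk G A X := by
  classical
  obtain ⟨P, Q, h1, h2, h3, h4, h5⟩ := h
  have key : ∀ n P Q, Sp G A P Q → X ⊆ P → (P ∩ Q).ncard < X.ncard → (Q \ P).Nonempty →
      Lk G Q (P ∩ Q) → P.ncard = n → Lk G A X := by
    intro n
    induction n using Nat.strong_induction_on with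
    | _ n ih =>
      intro P Q h1 h2 h3 h4 h5 h6
      have hPA : P.ncard < A.ncard := by
        apply Set.ncard_lt_ncard _ (Set.toFinite _)
        refine ⟨h1.leftSub, fun hAP => ?_⟩
        obtain ⟨z, hz⟩ := h4
        exact hz.2 (hAP (h1.rightSub hz.1))
      by_cases hm : Ms (cl G (P ∩ Q)) c P X
      · have h7 := IH _ P X hPA le_rfl hm
        have h8 := Lk.of_clique h2 rfl h7 h5
        rwa [h1.un] at h8
      · -- `m1` holds, so `m2` fails
        have hle : G ≤ cl G (P ∩ Q) := fun _ _ h => Or.inl h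
        have hm1 : 2 * c * (P \ X).ncard < (E2 (cl G (P ∩ Q)) P (P \ X)).ncard := by
          have e1 : (E2 G A (A \ X)) ⊆ E2 G P (P \ X) ∪ E2 G A (Q \ P) := by
            rintro ⟨x, y⟩ ⟨hx, hy, hxy, hor⟩
            simp only at hx hy hxy hor
            by_cases hxP : x ∈ P
            · by_cases hyP : y ∈ P
              · exact Or.inl ⟨hxP, hyP, hxy, hor.imp (fun h => ⟨hxP, h.2⟩) (fun h => ⟨hyP, h.2⟩)⟩
              · refine Or.inr ⟨hx, hy, hxy, Or.inr ⟨?_, hyP⟩⟩
                have := h1.un ▸ hy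
                exact this.resolve_left hyP
            · refine Or.inr ⟨hx, hy, hxy, Or.inl ⟨?_, hxP⟩⟩
              have := h1.un ▸ hx
              exact this.resolve_left hxP
          have e2 : (A \ X).ncard = (P \ X).ncard + (Q \ P).ncard := by
            rw [← Set.ncard_union_eq _ (Set.toFinite _) (Set.toFinite _)]
            · congr 1
              ext z
              rw [← h1.un]
              simp only [Set.mem_sdiff, Set.mem_union]
              constructor
              · rintro ⟨hz | hz, hz'⟩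
                · exact Or.inl ⟨hz, hz'⟩
                · by_cases hzP : z ∈ P
                  · exact Or.inl ⟨hzP, hz'⟩
                  · exact Or.inr ⟨hz, hzP⟩
              · rintro (⟨hz, hz'⟩ | ⟨hz, hz'⟩)
                · exact ⟨Or.inl hz, hz'⟩
                · exact ⟨Or.inr hz, fun h => hz' (h2 h)⟩
            · rw [Set.disjoint_left]
              intro z hz hz'
              exact hz'.2 hz.1
          have e3 := hM.m1
          have e4 := hM.m2 P Q h1 h2 h3
          have e5 := Set.ncard_le_ncard e1 (Set.toFinite _)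
          have e6 := Set.ncard_union_le (E2 G P (P \ X)) (E2 G A (Q \ P))
          have e7 := Set.ncard_le_ncard (E2_mono (A := P) (B := P \ X) hle subset_rfl subset_rfl)
            (Set.toFinite _)
          rw [e2, mul_add] at e3
          omega
        have hex : ∃ P' Q', Sp (cl G (P ∩ Q)) P P' Q' ∧ X ⊆ P' ∧ (P' ∩ Q').ncard < X.ncard ∧
            2 * c * (Q' \ P').ncard < (E2 (cl G (P ∩ Q)) P (Q' \ P')).ncard := by
          by_contra hcon
          push Not at hcon
          exact hm ⟨h2, hm1, hcon⟩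
        obtain ⟨P', Q', g1, g2, g3, g4, g5⟩ := viol_min hex
        have hP'P : P' ⊆ P := g1.leftSub
        have hQ'P : Q' ⊆ P := g1.rightSub
        by_cases hKP : P ∩ Q ⊆ P'
        · exfalso
          have f1 : Sp G A (P' ∪ Q) Q' := by
            refine ⟨?_, ?_⟩
            · ext z
              rw [← h1.un, ← g1.un]
              simp only [Set.mem_union]
              tauto
            · rintro x ⟨hx, hx'⟩ y ⟨hy, hy'⟩ hadj
              have hyP' : y ∉ P' := fun h => hy' (Or.inl h)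
              have hyQ : y ∉ Q := fun h => hy' (Or.inr h)
              by_cases hxP' : x ∈ P'
              · exact g1.no x ⟨hxP', hx'⟩ y ⟨hy, hyP'⟩ (hle hadj)
              · have hxQ : x ∈ Q := hx.resolve_left hxP'
                have hxP : x ∉ P := fun h => hxP' (hKP ⟨h, hxQ⟩)
                exact h1.no y ⟨hQ'P hy, hyQ⟩ x ⟨hxQ, hxP⟩ hadj.symm
          have f2 : (P' ∪ Q) ∩ Q' = P' ∩ Q' := by
            ext z
            constructor
            · rintro ⟨hz | hz, hz'⟩
              · exact ⟨hz, hz'⟩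
              · exact ⟨hKP ⟨hQ'P hz', hz⟩, hz'⟩
            · rintro ⟨hz, hz'⟩
              exact ⟨Or.inl hz, hz'⟩
          have f3 : Q' \ (P' ∪ Q) = Q' \ P' := by
            ext z
            constructor
            · rintro ⟨hz, hz'⟩
              exact ⟨hz, fun h => hz' (Or.inl h)⟩
            · rintro ⟨hz, hz'⟩
              refine ⟨hz, ?_⟩
              rintro (h | h)
              · exact hz' h
              · exact hz' (hKP ⟨hQ'P hz, h⟩)
          have f4 := hM.m2 _ _ f1 (g2.trans Set.subset_union_left) (by rw [f2]; exact g3)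
          rw [f3] at f4
          have f5 : E2 (cl G (P ∩ Q)) P (Q' \ P') ⊆ E2 G A (Q' \ P') := by
            rintro ⟨x, y⟩ ⟨hx, hy, hxy, hor⟩
            simp only at hx hy hxy hor
            refine ⟨h1.leftSub hx, h1.leftSub hy, ?_, hor⟩
            rcases hxy with h | h
            · exact h
            · exfalso
              rcases hor with h' | h'
              · exact h'.2 (hKP h.2.1)
              · exact h'.2 (hKP h.2.2)
          have f6 := Set.ncard_le_ncard f5 (Set.toFinite _)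
          omega
        · have hKQ : P ∩ Q ⊆ Q' := by
            rw [Set.not_subset] at hKP
            obtain ⟨b, hb, hbP⟩ := hKP
            intro a ha
            by_contra haQ
            have haP : a ∈ P' := by
              have := g1.un ▸ ha.1
              exact this.resolve_right haQ
            have hbQ : b ∈ Q' := by
              have := g1.un ▸ hb.1
              exact this.resolve_left hbP
            refine g1.no a ⟨haP, haQ⟩ b ⟨hbQ, hbP⟩ (Or.inr ⟨?_, ha, hb⟩)
            rintro rfl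
            exact hbP haP
          have hQ'n : Q'.ncard < A.ncard :=
            lt_of_le_of_lt (Set.ncard_le_ncard hQ'P (Set.toFinite _)) hPA
          have f1 := IH _ Q' (P' ∩ Q') hQ'n g3.le g5
          have f2 : Q' ∩ Q = P ∩ Q := by
            ext z
            constructor
            · rintro ⟨hz, hz'⟩
              exact ⟨hQ'P hz, hz'⟩
            · intro hz
              exact ⟨hKQ hz, hz.2⟩
          have f3 := Lk.of_clique (P := Q') (Q := Q) (K := P ∩ Q) Set.inter_subset_right f2 f1 h5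
          have f4 : P' ∩ (Q' ∪ Q) = P' ∩ Q' := by
            ext z
            constructor
            · rintro ⟨hz, hz' | hz'⟩
              · exact ⟨hz, hz'⟩
              · exact ⟨hz, hKQ ⟨hP'P hz, hz'⟩⟩
            · rintro ⟨hz, hz'⟩
              exact ⟨hz, Or.inl hz'⟩
          obtain ⟨z0, hz0⟩ := nonempty_of_viol g4
          have hlt : P'.ncard < n := by
            rw [← h6]
            apply Set.ncard_lt_ncard _ (Set.toFinite _)
            exact ⟨hP'P, fun h => hz0.2 (h (hQ'P hz0.1))⟩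
          refine ih P'.ncard hlt P' (Q' ∪ Q) ⟨?_, ?_⟩ g2 ?_ ?_ ?_ rfl
          · rw [← Set.union_assoc, g1.un, h1.un]
          · rintro x ⟨hx, hx'⟩ y ⟨hy, hy'⟩ hadj
            have hxQ' : x ∉ Q' := fun h => hx' (Or.inl h)
            have hxQ : x ∉ Q := fun h => hx' (Or.inr h)
            rcases hy with hy | hy
            · exact g1.no x ⟨hx, hxQ'⟩ y ⟨hy, hy'⟩ (hle hadj)
            · by_cases hyP : y ∈ P
              · exact g1.no x ⟨hx, hxQ'⟩ y ⟨hKQ ⟨hyP, hy⟩, hy'⟩ (hle hadj)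
              · exact h1.no x ⟨hP'P hx, hxQ⟩ y ⟨hy, hyP⟩ hadj
          · rw [f4]; exact g3
          · obtain ⟨z, hz⟩ := h4
            exact ⟨z, Or.inr hz.1, fun h => hz.2 (hP'P h)⟩
          · rw [f4]; exact f3
  exact key _ P Q h1 h2 h3 h4 h5 rfl

/-- Violating separations of order at most `#X`. -/
theorem viol [Finite V] {G : SimpleGraph V} {c : ℕ} {A X : Set V} (hM : Ms G c A X)
    (IH : ∀ (G : SimpleGraph V) (A' X' : Set V), A'.ncard < A.ncard → X'.ncard ≤ X.ncard →
      Ms G c A' X' → Lk G A' X')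
    {P Q : Set V} (h1 : Sp G A P Q) (h2 : X ⊆ P) (h3 : (P ∩ Q).ncard ≤ X.ncard)
    (h4 : 2 * c * (Q \ P).ncard < (E2 G A (Q \ P)).ncard) (h5 : Q ≠ A) : Lk G A X := by
  have h6 : (P ∩ Q).ncard = X.ncard := by
    by_contra hne
    have := hM.m2 P Q h1 h2 (lt_of_le_of_ne h3 hne)
    omega
  have hQA : Q.ncard < A.ncard :=
    Set.ncard_lt_ncard (lt_of_le_of_ne h1.rightSub h5) (Set.toFinite _)
  have hd : Q \ (P ∩ Q) = Q \ P := by
    ext z; simp
  have hmQ : Ms G c Q (P ∩ Q) := by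
    refine ⟨Set.inter_subset_right, ?_, ?_⟩
    · rw [hd, ← E2_sep h1]; exact h4
    · intro P1 Q1 g1 g2 g3
      obtain ⟨g4, g5, g6⟩ := h1.glue g1 g2
      have := hM.m2 _ _ g4 (h2.trans Set.subset_union_left) (by rw [g5]; omega)
      rw [g6] at this
      exact (Set.ncard_le_ncard (E2_mono le_rfl h1.rightSub subset_rfl)
        (Set.toFinite _)).trans this
  have hLk := IH G Q (P ∩ Q) hQA h3 hmQ
  rcases menger_dich G (A := P) (X := X) (K := P ∩ Q) h2 Set.inter_subset_left with hF | hS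
  · have := Lk.of_fan (Q := Q) hF subset_rfl (fun b hb => hLk.anti (by
      rintro _ ⟨x, hx, rfl⟩; exact hb x hx))
    rwa [h1.un] at this
  · obtain ⟨P', Q', g1, g2, g3, g4, g5⟩ := min_sep G hS
    -- rigid separation `(P', Q' ∪ Q)`
    have hP'P : P' ⊆ P := g1.leftSub
    have hQ'P : Q' ⊆ P := g1.rightSub
    have f1 : Lk G (Q' ∪ Q) (P' ∩ Q') := by
      refine Lk.of_fan (Q := Q) g5 ?_ (fun b hb => hLk.anti (by
        rintro _ ⟨x, hx, rfl⟩; exact hb x hx))
      rintro z ⟨hz, hz'⟩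
      exact ⟨hQ'P hz, hz'⟩
    have f4 : P' ∩ (Q' ∪ Q) = P' ∩ Q' := by
      ext z
      constructor
      · rintro ⟨hz, hz' | hz'⟩
        · exact ⟨hz, hz'⟩
        · exact ⟨hz, g3 ⟨hP'P hz, hz'⟩⟩
      · rintro ⟨hz, hz'⟩
        exact ⟨hz, Or.inl hz'⟩
    refine rigid hM IH ⟨P', Q' ∪ Q, ⟨?_, ?_⟩, g2, ?_, ?_, ?_⟩
    · rw [← Set.union_assoc, g1.un, h1.un]
    · rintro x ⟨hx, hx'⟩ y ⟨hy, hy'⟩ hadj
      have hxQ' : x ∉ Q' := fun h => hx' (Or.inl h)
      have hxQ : x ∉ Q := fun h => hx' (Or.inr h)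
      rcases hy with hy | hy
      · exact g1.no x ⟨hx, hxQ'⟩ y ⟨hy, hy'⟩ hadj
      · by_cases hyP : y ∈ P
        · exact hxQ' (by
            have := g3 ⟨hyP, hy⟩
            by_contra _
            exact g1.no x ⟨hx, hxQ'⟩ y ⟨this, hy'⟩ hadj)
        · exact h1.no x ⟨hP'P hx, hxQ⟩ y ⟨hy, hyP⟩ hadj
    · rw [f4]; exact g4
    · obtain ⟨z, hz⟩ := nonempty_of_viol h4
      exact ⟨z, Or.inr hz.1, fun h => hz.2 (hP'P h)⟩
    · rw [f4]; exact f1

end Pool.Agent.Helper76.TW
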